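import Mathlib

/-!
# Flows of bounded Lipschitz vector fields
-/

open scoped Topology NNReal
open Set Filter Metric

noncomputable section

namespace Pool.Agent.H844R2.AG

variable {E : Type} [NormedAddCommGroup E] [NormedSpace ℝ E] [CompleteSpace E]

/-- The flow for times in `(-1, 2)` of a bounded Lipschitz vector field vanishing off `S`. -/
theorem exists_flow {Y : E → E} {K C : ℝ≥0} (hL : LipschitzWith K Y) (hb : ∀ x, ‖Y x‖ ≤ C)
    {S T : Set E} (hST : S ⊆ T) (hYS : ∀ x, x ∉ S → Y x = 0) :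
    ∃ c : E → ℝ → E, (∀ x, c x 0 = x) ∧ (∀ x ∈ T, ∀ t, c x t ∈ T) ∧
      (∀ x, ∀ t ∈ Ioo (-1 : ℝ) 2, HasDerivAt (c x) (Y (c x t)) t) ∧
      ∀ (x : E) (γ : ℝ → E), γ 0 = x → (∀ t ∈ Icc (0 : ℝ) 1, HasDerivAt γ (Y (γ t)) t) →
        c x 1 = γ 1 := by
  have h0 : (0 : ℝ) ∈ Icc (-1 : ℝ) 2 := by norm_num
  have hα : ∀ x : E, ∃ α : ℝ → E, α 0 = x ∧
      ∀ t ∈ Icc (-1 : ℝ) 2, HasDerivWithinAt α (Y (α t)) (Icc (-1 : ℝ) 2) t := by
    intro x
    have hPL : IsPicardLindelof (fun _ : ℝ => Y) (tmin := -1) (tmax := 2) ⟨0, h0⟩ x (2 * C) 0 C K := by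
      refine IsPicardLindelof.of_time_independent (fun y _ => hb y) hL.lipschitzOnWith ?_
      have : max ((2 : ℝ) - 0) (0 - (-1)) = 2 := by norm_num
      push_cast
      rw [this]
      linarith
    exact hPL.exists_eq_forall_mem_Icc_hasDerivWithinAt₀
  choose α hα0 hα1 using hα
  have hα2 : ∀ x, ∀ t ∈ Ioo (-1 : ℝ) 2, HasDerivAt (α x) (Y (α x t)) t := by
    intro x t ht
    exact (hα1 x t (Ioo_subset_Icc_self ht)).hasDerivAt (Icc_mem_nhds ht.1 ht.2)
  classical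
  have hc : ∀ x, ∀ t ∈ Ioo (-1 : ℝ) 2,
      HasDerivAt (fun s => if s ∈ Ioo (-1 : ℝ) 2 then α x s else x)
        (Y (if t ∈ Ioo (-1 : ℝ) 2 then α x t else x)) t := by
    intro x t ht
    rw [if_pos ht]
    refine (hα2 x t ht).congr_of_eventuallyEq ?_
    filter_upwards [Ioo_mem_nhds ht.1 ht.2] with s hs
    rw [if_pos hs]
  refine ⟨fun x t => if t ∈ Ioo (-1 : ℝ) 2 then α x t else x, ?_, ?_, hc, ?_⟩
  · intro x
    have : (0 : ℝ) ∈ Ioo (-1 : ℝ) 2 := by norm_num
    simp only [if_pos this, hα0]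
  · intro x hx t
    by_cases ht : t ∈ Ioo (-1 : ℝ) 2
    · simp only [if_pos ht]
      by_contra hn
      have hz : Y (α x t) = 0 := hYS _ fun h => hn (hST h)
      have hu := ODE_solution_unique_of_mem_Ioo (v := fun _ => Y) (s := fun _ => univ)
        (f := α x) (g := fun _ => α x t) (K := K) (fun s _ => hL.lipschitzOnWith) ht
        (fun s hs => ⟨hα2 x s hs, trivial⟩)
        (fun s _ => ⟨by rw [hz]; exact hasDerivAt_const _ _, trivial⟩) rfl
      have h1 : (0 : ℝ) ∈ Ioo (-1 : ℝ) 2 := by norm_num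
      have h2 := hu h1
      simp only [hα0] at h2
      rw [← h2] at hn
      exact hn hx
    · simp only [if_neg ht]; exact hx
  · intro x γ hγ0 hγ
    have h1 : (1 : ℝ) ∈ Ioo (-1 : ℝ) 2 := by norm_num
    simp only [if_pos h1]
    have hsub : Icc (0 : ℝ) 1 ⊆ Ioo (-1 : ℝ) 2 := fun s hs => ⟨by linarith [hs.1], by linarith [hs.2]⟩
    have hu := ODE_solution_unique (v := fun _ => Y) (K := K) (f := α x) (g := γ)
      (a := 0) (b := 1) (fun _ => hL)
      (fun s hs => (hα2 x s (hsub hs)).continuousAt.continuousWithinAt)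
      (fun s hs => (hα2 x s (hsub (Ico_subset_Icc_self hs))).hasDerivWithinAt)
      (fun s hs => (hγ s hs).continuousAt.continuousWithinAt)
      (fun s hs => (hγ s (Ico_subset_Icc_self hs)).hasDerivWithinAt)
      (by rw [hα0, hγ0])
    exact hu (by norm_num)

end Pool.Agent.H844R2.AG
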