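import Pool.Agent.H844R2.AG.Sets
import Pool.Agent.H844R2.AG.Flow

/-!
# Cut-off Hamiltonians and the motion of the sections
-/

open scoped ContDiff Topology Manifold
open Set Filter Metric

noncomputable section

namespace Pool.Agent.H844R2.AG

/-- the derivative of the generating function, as a function of the cosine -/
def gg (α β c : ℝ) : ℝ := α * c + β * (2 * c ^ 2 - 1)

/-- `α sin x + β sin x cos x` -/
def f1 (α β : ℝ) (z : ℂ) : ℝ := α * ss z + β * (ss z * cc z)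

lemma contDiffAt_f1 (α β : ℝ) {z : ℂ} (hz : 0 < r2 z) : ContDiffAt ℝ ∞ (f1 α β) z :=
  (contDiffAt_const.mul (contDiffAt_ss hz)).add
    (contDiffAt_const.mul ((contDiffAt_ss hz).mul (contDiffAt_cc hz)))

lemma hasFDerivAt_f1 (α β : ℝ) {z : ℂ} (hz : 0 < r2 z) :
    HasFDerivAt (f1 α β) (gg α β (cc z) • ang z) z := by
  have h1 := hasFDerivAt_ss hz
  have h2 := hasFDerivAt_cc hz
  have h3 := (h1.const_mul α).add ((h1.mul h2).const_mul β)
  refine h3.congr_fderiv ?_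
  have h4 := cc_sq_add_ss_sq hz
  ext v
  simp only [_root_.smul_apply, _root_.add_apply, smul_eq_mul, gg]
  linear_combination (-β * ang z v) * h4

/-- the generating functions -/
def FF (α₁ β₁ α₂ β₂ : ℝ) (z : ℂ × ℂ) : ℝ := f1 α₁ β₁ z.1 + f1 α₂ β₂ z.2

lemma contDiffAt_FF (α₁ β₁ α₂ β₂ : ℝ) {z : ℂ × ℂ} (hz : z ∈ XX) :
    ContDiffAt ℝ ∞ (FF α₁ β₁ α₂ β₂) z :=
  (ContDiffAt.comp (g := f1 α₁ β₁) z (contDiffAt_f1 _ _ hz.1) contDiffAt_fst).add
    (ContDiffAt.comp (g := f1 α₂ β₂) z (contDiffAt_f1 _ _ hz.2) contDiffAt_snd)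

lemma hasFDerivAt_FF (α₁ β₁ α₂ β₂ : ℝ) {z : ℂ × ℂ} (hz : z ∈ XX) :
    HasFDerivAt (FF α₁ β₁ α₂ β₂)
      ((gg α₁ β₁ (cc z.1) • ang z.1).comp (ContinuousLinearMap.fst ℝ ℂ ℂ) +
        (gg α₂ β₂ (cc z.2) • ang z.2).comp (ContinuousLinearMap.snd ℝ ℂ ℂ)) z := by
  have h1 := HasFDerivAt.comp (g := f1 α₁ β₁) z (hasFDerivAt_f1 α₁ β₁ hz.1) hasFDerivAt_fst
  have h2 := HasFDerivAt.comp (g := f1 α₂ β₂) z (hasFDerivAt_f1 α₂ β₂ hz.2) hasFDerivAt_snd
  exact h1.add h2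

/-- the Hamiltonian vector field of `h` -/
def YY (h : ℂ × ℂ → ℝ) (z : ℂ × ℂ) : ℂ × ℂ :=
  ((r2 z.1 * fderiv ℝ h z (Complex.I, 0)) • (1 : ℂ) -
      (r2 z.1 * fderiv ℝ h z (1, 0)) • Complex.I,
    (r2 z.2 * fderiv ℝ h z (0, Complex.I)) • (1 : ℂ) -
      (r2 z.2 * fderiv ℝ h z (0, 1)) • Complex.I)

lemma contDiff_YY {h : ℂ × ℂ → ℝ} (hh : ContDiff ℝ ∞ h) : ContDiff ℝ ∞ (YY h) := by
  have hd : ContDiff ℝ ∞ (fderiv ℝ h) := hh.fderiv_right (by simp)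
  have h1 : ContDiff ℝ ∞ (fun z : ℂ × ℂ => r2 z.1) := contDiff_r2.comp contDiff_fst
  have h2 : ContDiff ℝ ∞ (fun z : ℂ × ℂ => r2 z.2) := contDiff_r2.comp contDiff_snd
  have k : ∀ v, ContDiff ℝ ∞ fun z => fderiv ℝ h z v := fun v => hd.clm_apply contDiff_const
  unfold YY
  exact (((h1.mul (k _)).smul contDiff_const).sub ((h1.mul (k _)).smul contDiff_const)).prodMk
    (((h2.mul (k _)).smul contDiff_const).sub ((h2.mul (k _)).smul contDiff_const))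

lemma clm_decomp (l : ℂ × ℂ →L[ℝ] ℝ) (w : ℂ × ℂ) :
    l w = w.1.re * l (1, 0) + w.1.im * l (Complex.I, 0) + w.2.re * l (0, 1) +
      w.2.im * l (0, Complex.I) := by
  have : w = w.1.re • ((1 : ℂ), (0 : ℂ)) + w.1.im • (Complex.I, (0 : ℂ)) +
      w.2.re • ((0 : ℂ), (1 : ℂ)) + w.2.im • ((0 : ℂ), Complex.I) := by
    refine Prod.ext (Complex.ext ?_ ?_) (Complex.ext ?_ ?_) <;> simp
  conv_lhs => rw [this]
  simp only [map_add, map_smul, smul_eq_mul]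

lemma Om_YY {h : ℂ × ℂ → ℝ} {z : ℂ × ℂ} (hz : z ∈ XX) (w : ℂ × ℂ) :
    Om z ![YY h z, w] = fderiv ℝ h z w := by
  have h1 := hz.1.ne'
  have h2 := hz.2.ne'
  rw [Om_apply, clm_decomp (fderiv ℝ h z) w]
  simp only [YY, Complex.sub_re, Complex.sub_im, Complex.real_smul, Complex.mul_re, Complex.mul_im,
    Complex.ofReal_re, Complex.ofReal_im, Complex.one_re, Complex.one_im, Complex.I_re,
    Complex.I_im]
  field_simp
  ring

lemma YY_of_FF {h : ℂ × ℂ → ℝ} {α₁ β₁ α₂ β₂ : ℝ} {z : ℂ × ℂ} (hz : z ∈ XX)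
    (hh : h =ᶠ[𝓝 z] FF α₁ β₁ α₂ β₂) :
    YY h z = (gg α₁ β₁ (cc z.1) • z.1, gg α₂ β₂ (cc z.2) • z.2) := by
  have h1 := hz.1.ne'
  have h2 := hz.2.ne'
  have hd := (hasFDerivAt_FF α₁ β₁ α₂ β₂ hz).congr_of_eventuallyEq hh
  unfold YY
  rw [hd.fderiv]
  simp only [_root_.add_apply, ContinuousLinearMap.comp_apply, ContinuousLinearMap.coe_fst',
    ContinuousLinearMap.coe_snd', _root_.smul_apply, ang_apply, smul_eq_mul]
  refine Prod.ext (Complex.ext ?_ ?_) (Complex.ext ?_ ?_) <;> simp <;> field_simp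

lemma hasDerivAt_tr (ζ : ℂ × ℂ) (a b α β t : ℝ) :
    HasDerivAt (fun t => tr ζ (a + t * α) (b + t * β))
      (α • (tr ζ (a + t * α) (b + t * β)).1, β • (tr ζ (a + t * α) (b + t * β)).2) t := by
  have k : ∀ (a α : ℝ) (z : ℂ), HasDerivAt (fun t : ℝ => Real.exp (a + t * α) • z)
      (α • (Real.exp (a + t * α) • z)) t := by
    intro a α z
    have h1 : HasDerivAt (fun t : ℝ => a + t * α) α t := by
      simpa using ((hasDerivAt_id t).mul_const α).const_add a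
    have h2 := (h1.exp).smul_const z
    rw [smul_smul, mul_comm α]
    exact h2
  exact (k a α ζ.1).prodMk (k b β ζ.2)

/-- The motion of a section inside a sheet by a cut-off Hamiltonian. -/
theorem exists_push (D : GlueData (ℂ × ℂ)) (i : Fin 3) (hX : D.T i ⊆ XX) {V : Set (ℂ × ℂ)}
    (hV : IsCompact V) (hVT : V ⊆ D.T i) (α₁ β₁ α₂ β₂ : ℝ) :
    ∃ φ : D.Sp → D.Sp, φ ∈ PHam (liftForm (M := D.Sp) D.pr Om) ∧
      ∀ ζ ∈ TT, ∀ a b, (∀ t ∈ Icc (0 : ℝ) 1,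
        tr ζ (a + t * gg α₁ β₁ ζ.1.re) (b + t * gg α₂ β₂ ζ.2.re) ∈ V) →
        φ (D.sec i (tr ζ a b)) =
          D.sec i (tr ζ (a + gg α₁ β₁ ζ.1.re) (b + gg α₂ β₂ ζ.2.re)) := by
  obtain ⟨K, hK, hVK, hKT⟩ := exists_compact_between hV (D.isOpen_T i) hVT
  obtain ⟨f, hf1, hf0, -⟩ := exists_contMDiffMap_one_nhds_of_subset_interior (n := ⊤)
    𝓘(ℝ, ℂ × ℂ) hV.isClosed hVK
  have hf : ContDiff ℝ ∞ f := contMDiff_iff_contDiff.mp f.contMDiff
  set h : ℂ × ℂ → ℝ := fun z => f z * FF α₁ β₁ α₂ β₂ z with hh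
  have hhK : ∀ z, z ∉ K → h z = 0 := by
    intro z hz
    simp only [hh, hf0 z hz, zero_mul]
  have hhev : ∀ z, z ∉ K → h =ᶠ[𝓝 z] fun _ => 0 := by
    intro z hz
    filter_upwards [hK.isClosed.isOpen_compl.mem_nhds hz] with y hy
    exact hhK y hy
  have hhs : ContDiff ℝ ∞ h := by
    rw [contDiff_iff_contDiffAt]
    intro z
    by_cases hz : z ∈ K
    · exact hf.contDiffAt.mul (contDiffAt_FF _ _ _ _ (hX (hKT hz)))
    · exact contDiffAt_const.congr_of_eventuallyEq (hhev z hz)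
  have hYK : ∀ z, z ∉ K → YY h z = 0 := by
    intro z hz
    have : fderiv ℝ h z = 0 := by rw [(hhev z hz).fderiv_eq]; simp
    unfold YY
    rw [this]; simp
  have hYs := contDiff_YY hhs
  have hYc : HasCompactSupport (YY h) := HasCompactSupport.intro hK hYK
  obtain ⟨L, hL⟩ := hYs.lipschitzWith_of_hasCompactSupport hYc (by simp)
  obtain ⟨C, hC⟩ := hYc.exists_bound_of_continuous hYs.continuous
  have hC' : ∀ z, ‖YY h z‖ ≤ (Real.toNNReal C : ℝ) := by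
    intro z
    exact (hC z).trans (Real.le_coe_toNNReal C)
  obtain ⟨c, hc0, hcT, hcd, hcu⟩ := exists_flow hL hC' hKT hYK
  refine ⟨liftFlow D i c 1, ?_, ?_⟩
  · refine liftFlow_mem_PHam (Ω := Om) (g := h) hhs.contDiffOn hK hKT hhK (fun x _ => hc0 x) hcT ?_
    intro x hx t ht
    have ht' : t ∈ Ioo (-1 : ℝ) 2 := ⟨by linarith [ht.1], by linarith [ht.2]⟩
    exact ⟨_, hcd x t ht', fun w => Om_YY (hX (hcT x hx t)) w⟩
  · intro ζ hζ a b hpath
    have h0 : tr ζ a b ∈ D.T i := by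
      have := hpath 0 (by norm_num)
      simp only [zero_mul, add_zero] at this
      exact hVT this
    have h1 := hcu (tr ζ a b) (fun t => tr ζ (a + t * gg α₁ β₁ ζ.1.re) (b + t * gg α₂ β₂ ζ.2.re))
      (by simp) (by
        intro t ht
        have hm := hpath t ht
        have hmX : tr ζ (a + t * gg α₁ β₁ ζ.1.re) (b + t * gg α₂ β₂ ζ.2.re) ∈ XX := hX (hVT hm)
        have hev : h =ᶠ[𝓝 (tr ζ (a + t * gg α₁ β₁ ζ.1.re) (b + t * gg α₂ β₂ ζ.2.re))]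
            FF α₁ β₁ α₂ β₂ := by
          have : ∀ᶠ y in 𝓝 (tr ζ (a + t * gg α₁ β₁ ζ.1.re) (b + t * gg α₂ β₂ ζ.2.re)),
              f y = 1 := hf1.filter_mono (nhds_le_nhdsSet hm)
          filter_upwards [this] with y hy
          simp only [hh, hy, one_mul]
        rw [YY_of_FF hmX hev]
        have e1 : cc (tr ζ (a + t * gg α₁ β₁ ζ.1.re) (b + t * gg α₂ β₂ ζ.2.re)).1 = ζ.1.re :=
          cc_exp hζ.1 _
        have e2 : cc (tr ζ (a + t * gg α₁ β₁ ζ.1.re) (b + t * gg α₂ β₂ ζ.2.re)).2 = ζ.2.re :=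
          cc_exp hζ.2 _
        rw [e1, e2]
        exact hasDerivAt_tr ζ a b _ _ t)
    have h2 : D.sec i (tr ζ a b) ∈ D.sheet i := D.sec_mem h0
    unfold liftFlow
    rw [if_pos h2, D.pr_sec h0, h1]
    simp only [one_mul]

end Pool.Agent.H844R2.AG
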