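import Pool.Agent.H844R2.AG.Sets

/-!
# The neighbourhoods of the tracks
-/

open scoped ContDiff Topology
open Set Filter Metric

noncomputable section

namespace Pool.Agent.H844R2.AG

/-- the exchange of the second and third sheets -/
def sw : Fin 3 → Fin 3 := ![0, 2, 1]

lemma sw_sw (i : Fin 3) : sw (sw i) = i := by fin_cases i <;> rfl

lemma V0_ta {z : ℂ × ℂ} (hz : z ∈ V0) : ta z ∈ V0 := by
  obtain ⟨x, hx, rfl⟩ := hz
  refine ⟨(x.1, -x.2), ⟨hx.1, ?_, ?_⟩, ?_⟩
  · linarith [hx.2.2]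
  · linarith [hx.2.1]
  · simp only
    rw [ta_tr hx.1]
    congr 1 <;> ring

lemma VV_ta {i : Fin 3} {z : ℂ × ℂ} (hz : z ∈ VV i) : ta z ∈ VV (sw i) := by
  fin_cases i
  · exact V0_ta hz
  · exact mem_image_of_mem ta hz
  · obtain ⟨x, hx, rfl⟩ := hz
    change ta (ta x) ∈ V1
    rw [ta_ta (V1_sub hx)]
    exact hx

lemma VV_nonempty (i : Fin 3) : (VV i).Nonempty := by
  obtain ⟨ζ, hζ⟩ := TT_nonempty
  have h0 : (0 : ℝ) ∈ Icc (-1 : ℝ) 1 := by norm_num
  have h1 : (0 : ℝ) ∈ Icc (0 : ℝ) 1 := by norm_num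
  fin_cases i
  · exact ⟨_, (ζ, 0), ⟨hζ, h0⟩, rfl⟩
  · exact ⟨_, Or.inl ⟨(ζ, 0), ⟨hζ, h1⟩, rfl⟩⟩
  · exact ⟨_, _, Or.inl ⟨(ζ, 0), ⟨hζ, h1⟩, rfl⟩, rfl⟩

lemma infDist_le_of_mem_cthickening {δ : ℝ} (hδ : 0 ≤ δ) {s : Set (ℂ × ℂ)} {x : ℂ × ℂ}
    (h : x ∈ cthickening δ s) : infDist x s ≤ δ := by
  rw [mem_cthickening_iff] at h
  exact ENNReal.toReal_le_of_le_ofReal hδ h

/-- a thickness -/
lemma exists_thickness : ∃ ε : ℝ, 0 < ε ∧ (∀ i, cthickening ε (VV i) ⊆ XX) ∧
    ∀ i j, i ≠ j → ∀ x, x ∈ cthickening ε (VV i) → x ∈ cthickening ε (VV j) → kk x ≠ 0 := by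
  have h1 : ∀ i : Fin 3, ∃ δ, 0 < δ ∧ cthickening δ (VV i) ⊆ XX := fun i =>
    (isCompact_VV i).exists_cthickening_subset_open isOpen_XX (VV_sub i)
  choose δ hδ hδX using h1
  have h2 : ∀ i j : Fin 3, ∃ m : ℝ, 0 < m ∧ (i ≠ j → ∀ x ∈ cthickening (δ i) (VV i), kk x = 0 →
      m ≤ infDist x (VV i) + infDist x (VV j)) := by
    intro i j
    by_cases hij : i = j
    · exact ⟨1, one_pos, fun h => absurd hij h⟩
    have hK : IsCompact (cthickening (δ i) (VV i)) := (isCompact_VV i).cthickening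
    have hN : IsCompact (cthickening (δ i) (VV i) ∩ kk ⁻¹' {0}) := by
      have hc : ContinuousOn kk (cthickening (δ i) (VV i)) := continuousOn_kk.mono (hδX i)
      have := hc.preimage_isClosed_of_isClosed hK.isClosed (isClosed_singleton (x := (0 : ℝ)))
      exact hK.of_isClosed_subset this inter_subset_left
    have hcont : ContinuousOn (fun x => infDist x (VV i) + infDist x (VV j))
        (cthickening (δ i) (VV i) ∩ kk ⁻¹' {0}) :=
      ((continuous_infDist_pt _).add (continuous_infDist_pt _)).continuousOn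
    obtain ⟨m, hm, hm'⟩ := hN.exists_forall_le' hcont (a := 0) (by
      intro x hx
      have a1 : 0 ≤ infDist x (VV i) := infDist_nonneg
      have a2 : 0 ≤ infDist x (VV j) := infDist_nonneg
      rcases a1.lt_or_eq with h | h
      · linarith
      rcases a2.lt_or_eq with h' | h'
      · linarith
      have b1 : x ∈ VV i :=
        ((isCompact_VV i).isClosed.mem_iff_infDist_zero (VV_nonempty i)).mpr h.symm
      have b2 : x ∈ VV j :=
        ((isCompact_VV j).isClosed.mem_iff_infDist_zero (VV_nonempty j)).mpr h'.symm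
      exact absurd hx.2 (kk_ne_zero hij b1 b2))
    exact ⟨m, hm, fun _ x hx hk => hm' x ⟨hx, hk⟩⟩
  choose m hm hm' using h2
  have hex : ∃ ε : ℝ, 0 < ε ∧ (∀ i, ε ≤ δ i) ∧ ∀ i j, 3 * ε ≤ m i j := by
    obtain ⟨i0, hi0⟩ := Finite.exists_min δ
    obtain ⟨p0, hp0⟩ := Finite.exists_min (fun p : Fin 3 × Fin 3 => m p.1 p.2)
    refine ⟨min (δ i0) (m p0.1 p0.2 / 3), lt_min (hδ _) (by have := hm p0.1 p0.2; linarith), ?_, ?_⟩
    · intro i; exact (min_le_left _ _).trans (hi0 i)
    · intro i j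
      have := hp0 (i, j)
      have h3 := min_le_right (δ i0) (m p0.1 p0.2 / 3)
      simp only at this
      linarith
  obtain ⟨ε, hε, hεδ, hεm⟩ := hex
  refine ⟨ε, hε, fun i => (cthickening_mono (hεδ i) _).trans (hδX i), ?_⟩
  intro i j hij x hi hj hk
  have c1 := infDist_le_of_mem_cthickening hε.le hi
  have c2 := infDist_le_of_mem_cthickening hε.le hj
  have c3 := hm' i j hij x (cthickening_mono (hεδ i) _ hi) hk
  have c4 := hεm i j
  linarith

lemma isOpen_preimage_ta {U : Set (ℂ × ℂ)} (hU : IsOpen U) : IsOpen (XX ∩ ta ⁻¹' U) :=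
  contDiffOn_ta.continuousOn.isOpen_inter_preimage isOpen_XX hU

lemma isPreconnected_TT : IsPreconnected TT := by
  rw [TT_eq]
  have h : IsPreconnected (sphere (0 : ℂ) 1) :=
    isPreconnected_sphere (by rw [Complex.rank_real_complex]; norm_num) 0 1
  exact h.prod h

lemma isPreconnected_V0 : IsPreconnected V0 := by
  refine (isPreconnected_TT.prod isPreconnected_Icc).image _ ?_
  unfold tr
  fun_prop

lemma isPreconnected_V1 : IsPreconnected V1 := by
  obtain ⟨ζ, hζ⟩ := TT_nonempty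
  have h0 : (0 : ℝ) ∈ Icc (0 : ℝ) 1 := by norm_num
  have h1 : (1 : ℝ) ∈ Icc (0 : ℝ) 1 := by norm_num
  refine IsPreconnected.union (tr ζ (1 / 2 * ζ.1.re) (1 / 2 * ζ.2.re)) ?_ ?_
    ((isPreconnected_TT.prod isPreconnected_Icc).image _ ?_)
    ((isPreconnected_TT.prod isPreconnected_Icc).image _ ?_)
  · refine ⟨(ζ, 1), ⟨hζ, h1⟩, ?_⟩
    simp only
    congr 1 <;> ring
  · refine ⟨(ζ, 0), ⟨hζ, h0⟩, ?_⟩
    simp only
    congr 1 <;> ring
  · unfold tr
    fun_prop
  · unfold tr WW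
    fun_prop

lemma isPreconnected_VV (i : Fin 3) : IsPreconnected (VV i) := by
  fin_cases i
  · exact isPreconnected_V0
  · exact isPreconnected_V1
  · exact isPreconnected_V1.image _ (contDiffOn_ta.continuousOn.mono V1_sub)

/-- The neighbourhoods of the three tracks. -/
theorem exists_T : ∃ T : Fin 3 → Set (ℂ × ℂ), (∀ i, IsOpen (T i)) ∧ (∀ i, T i ⊆ XX) ∧
    (∀ i, VV i ⊆ T i) ∧ (∀ i j, i ≠ j → ∀ x ∈ T i, x ∈ closure (T j) → kk x ≠ 0) ∧
    (∀ i, ∀ x ∈ T i, ta x ∈ T (sw i)) ∧ ∀ i, IsPreconnected (T i) := by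
  obtain ⟨ε, hε, hX, hsep⟩ := exists_thickness
  -- the symmetric thickenings
  set U : Fin 3 → Set (ℂ × ℂ) := fun i =>
    thickening ε (VV i) ∩ (XX ∩ ta ⁻¹' thickening ε (VV (sw i))) with hU
  have hUo : ∀ i, IsOpen (U i) := fun i => isOpen_thickening.inter (isOpen_preimage_ta isOpen_thickening)
  have hUX : ∀ i, U i ⊆ XX := fun i x hx => hx.2.1
  have hVU : ∀ i, VV i ⊆ U i := by
    intro i x hx
    refine ⟨self_subset_thickening hε _ hx, VV_sub i hx, ?_⟩
    exact self_subset_thickening hε _ (VV_ta hx)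
  have hUta : ∀ i, ∀ x ∈ U i, ta x ∈ U (sw i) := by
    intro i x hx
    refine ⟨hx.2.2, ta_mem hx.2.1, ?_⟩
    change ta (ta x) ∈ thickening ε (VV (sw (sw i)))
    rw [ta_ta hx.2.1, sw_sw]
    exact hx.1
  have hUsep : ∀ i j, i ≠ j → ∀ x ∈ U i, x ∈ closure (U j) → kk x ≠ 0 := by
    intro i j hij x hx hx'
    refine hsep i j hij x (thickening_subset_cthickening _ _ hx.1) ?_
    have h1 : closure (U j) ⊆ closure (thickening ε (VV j)) := closure_mono inter_subset_left
    exact closure_thickening_subset_cthickening _ _ (h1 hx')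
  choose v hv using VV_nonempty
  have hsub : ∀ i, VV i ⊆ connectedComponentIn (U i) (v i) := fun i =>
    (isPreconnected_VV i).subset_connectedComponentIn (hv i) (hVU i)
  refine ⟨fun i => connectedComponentIn (U i) (v i), fun i => (hUo i).connectedComponentIn,
    fun i => (connectedComponentIn_subset _ _).trans (hUX i), hsub, ?_, ?_, fun i => isPreconnected_connectedComponentIn⟩
  · intro i j hij x hx hx'
    exact hUsep i j hij x (connectedComponentIn_subset _ _ hx)
      (closure_mono (connectedComponentIn_subset _ _) hx')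
  · intro i x hx
    have h1 : IsPreconnected (ta '' connectedComponentIn (U i) (v i)) :=
      isPreconnected_connectedComponentIn.image _
        (contDiffOn_ta.continuousOn.mono ((connectedComponentIn_subset _ _).trans (hUX i)))
    have h2 : ta '' connectedComponentIn (U i) (v i) ⊆ U (sw i) := by
      rintro _ ⟨y, hy, rfl⟩
      exact hUta i y (connectedComponentIn_subset _ _ hy)
    have h3 : ta (v i) ∈ ta '' connectedComponentIn (U i) (v i) :=
      mem_image_of_mem _ (hsub i (hv i))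
    have h4 := h1.subset_connectedComponentIn h3 h2
    have h5 : ta (v i) ∈ connectedComponentIn (U (sw i)) (v (sw i)) := hsub _ (VV_ta (hv i))
    rw [← connectedComponentIn_eq h5] at h4
    exact h4 (mem_image_of_mem _ hx)

end Pool.Agent.H844R2.AG
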