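import Mathlib

/-!
# The Arnold–Givental inequality: definitions

Symplectic forms on smooth manifolds, anti-symplectic involutions, Hamiltonian diffeomorphisms and
the total mod-2 Betti number.
-/

open scoped Manifold ContDiff
open Set

noncomputable section

namespace Pool.Agent.H844R2.AG

section Forms

variable {E : Type} [NormedAddCommGroup E] [NormedSpace ℝ E]
  {H : Type} [TopologicalSpace H] (I : ModelWithCorners ℝ E H)
  {M : Type} [TopologicalSpace M] [ChartedSpace H M]

variable (M) in
/-- A (not necessarily smooth) differential 2-form on `M`: a continuous alternating bilinear form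
on each tangent space. -/
abbrev TwoForm : Type := ∀ x : M, (TangentSpace I x) [⋀^Fin 2]→L[ℝ] ℝ

variable {I}

/-- The expression of a 2-form in the preferred chart at `x₀`: its pullback to the model vector
space under the inverse of the chart. -/
def TwoForm.inChart (η : TwoForm I M) (x₀ : M) (y : E) : E [⋀^Fin 2]→L[ℝ] ℝ :=
  (η ((extChartAt I x₀).symm y)).compContinuousLinearMap
    (mfderiv 𝓘(ℝ, E) I (extChartAt I x₀).symm y)

/-- A symplectic form: a 2-form which in all charts is smooth and closed (`dη = 0`), and which is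
nondegenerate at every point. -/
structure IsSymplectic (η : TwoForm I M) : Prop where
  smooth : ∀ x₀ : M, ContDiffOn ℝ ∞ (TwoForm.inChart η x₀) (extChartAt I x₀).target
  closed : ∀ x₀ : M, ∀ y ∈ (extChartAt I x₀).target, extDeriv (TwoForm.inChart η x₀) y = 0
  nondegenerate : ∀ (x : M) (v : TangentSpace I x), (∀ w : TangentSpace I x, η x ![v, w] = 0) →
    v = 0

/-- An anti-symplectic involution of `(M, η)`: a smooth map `τ : M → M` with `τ ∘ τ = id` and
`τ^* η = -η`. -/
structure IsAntiSymplecticInvolution (η : TwoForm I M) (τ : M → M) : Prop where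
  smooth : ContMDiff I I ∞ τ
  involutive : ∀ x, τ (τ x) = x
  anti : ∀ (x : M) (v w : TangentSpace I x),
    η (τ x) ![mfderiv I I τ x v, mfderiv I I τ x w] = -η x ![v, w]

/-- `Φ` is the flow of the time-dependent vector field `X_t` of the compactly supported smooth
function `h : ℝ × M → ℝ`, `ι(X_t) η = dh_t`: `Φ 0` is the identity and each curve `t ↦ Φ t x` has
velocity `X_t (Φ t x)`. -/
structure IsHamiltonianFlow (η : TwoForm I M) (h : ℝ → M → ℝ) (Φ : ℝ → M → M) : Prop where
  smooth : ContMDiff (𝓘(ℝ, ℝ).prod I) 𝓘(ℝ, ℝ) ∞ (fun p : ℝ × M => h p.1 p.2)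
  support : ∃ K : Set M, IsCompact K ∧ ∀ t x, x ∉ K → h t x = 0
  zero : ∀ x, Φ 0 x = x
  flow : ∀ t x, ∃ X : TangentSpace I (Φ t x),
    HasMFDerivAt 𝓘(ℝ, ℝ) I (fun s => Φ s x) t ((1 : ℝ →L[ℝ] ℝ).smulRight X) ∧
    ∀ w : TangentSpace I (Φ t x), η (Φ t x) ![X, w] = mfderiv I 𝓘(ℝ, ℝ) (h t) (Φ t x) w

/-- The Hamiltonian diffeomorphisms of `(M, η)`: the time-one maps of the flows of time-dependent
compactly supported smooth functions. -/
def Ham (η : TwoForm I M) : Set (M → M) :=
  {φ | ∃ (h : ℝ → M → ℝ) (Φ : ℝ → M → M), IsHamiltonianFlow η h Φ ∧ ∀ x, Φ 1 x = φ x}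

variable (I) in
/-- The derivative at `x` of a map of `M` to itself, between the tangent spaces at `x` and at
`f x` (each of which is the model vector space `E`). -/
def derivAt (f : M → M) (x : M) : E →L[ℝ] E := mfderiv I I f x

variable (I) in
/-- The tangent space at a fixed point `x` of `τ` to the fixed point set of the involution `τ`: the
fixed vectors of the derivative of `τ` at `x`. -/
def fixTangent (τ : M → M) (x : M) : Submodule ℝ E :=
  LinearMap.ker ((derivAt I τ x : E →ₗ[ℝ] E) - LinearMap.id)

variable (I) in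
/-- The fixed point set `L` of `τ` and its image `φ(L)` meet transversally: at each point `φ x` of
`L ∩ φ(L)`, `x ∈ L`, the tangent spaces of `L` and `φ(L)` span the tangent space of `M`. -/
def MeetTransversally (τ φ : M → M) : Prop :=
  ∀ x, τ x = x → τ (φ x) = φ x →
    fixTangent I τ (φ x) ⊔ (fixTangent I τ x).map (derivAt I φ x : E →ₗ[ℝ] E) = ⊤

end Forms

open CategoryTheory AlgebraicTopology in
/-- The singular homology `H_n(X; ℤ/2)`. -/
def homologyZ2 (n : ℕ) (X : Type) [TopologicalSpace X] : ModuleCat.{0} (ZMod 2) :=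
  ((singularHomologyFunctor (ModuleCat.{0} (ZMod 2)) n).obj
    (ModuleCat.of (ZMod 2) (ZMod 2))).obj (TopCat.of X)

/-- The total mod-2 Betti number `∑ n, dim H_n(X; ℤ/2)` (a cardinal). -/
def totalBetti (X : Type) [TopologicalSpace X] : Cardinal :=
  Cardinal.sum fun n : ℕ => Module.rank (ZMod 2) (homologyZ2 n X)

end Pool.Agent.H844R2.AG
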