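import Pool.Agent.H844R2.AG.Defs

/-!
# Manifolds étale over a vector space

If all the charts of `M` are restrictions of one map `π : M → E`, the differential calculus of `M`
is that of `E`.
-/

open scoped Manifold ContDiff Topology
open Set Filter

set_option linter.unusedSectionVars false

noncomputable section

namespace Pool.Agent.H844R2.AG

variable {E : Type} [NormedAddCommGroup E] [NormedSpace ℝ E]
  {M : Type} [TopologicalSpace M]

/-- The charts of `M` are restrictions of `π`. -/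
class IsEtale [ChartedSpace E M] (π : M → E) : Prop where
  coe_eq : ∀ e ∈ atlas E M, ⇑e = π

/-- The charted space structure given by a local homeomorphism. -/
@[reducible] def etaleCharted (π : M → E) (hπ : IsLocalHomeomorph π) : ChartedSpace E M where
  atlas := {e | ⇑e = π}
  chartAt m := (hπ m).choose
  mem_chart_source m := (hπ m).choose_spec.1
  chart_mem_atlas m := (hπ m).choose_spec.2.symm

lemma isEtale_etaleCharted (π : M → E) (hπ : IsLocalHomeomorph π) :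
    @IsEtale E _ M _ (etaleCharted π hπ) π := by
  let _ := etaleCharted π hπ
  exact ⟨fun e he => he⟩

variable [ChartedSpace E M] (π : M → E) [hE : IsEtale π]

include hE

lemma coe_chartAt (m : M) : ⇑(chartAt E m) = π := hE.coe_eq _ (chart_mem_atlas E m)

lemma coe_extChartAt (m : M) : ⇑(extChartAt 𝓘(ℝ, E) m) = π := by
  funext x
  simp [coe_chartAt π m]

lemma isManifold_of_isEtale : IsManifold 𝓘(ℝ, E) ∞ M := by
  refine isManifold_of_contDiffOn 𝓘(ℝ, E) ∞ M ?_
  intro e e' he he'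
  have h1 := hE.coe_eq e he
  have h2 := hE.coe_eq e' he'
  refine contDiffOn_id.congr ?_
  intro x hx
  have hx' : x ∈ (e.symm ≫ₕ e').source := hx.1
  simp only [OpenPartialHomeomorph.trans_source, OpenPartialHomeomorph.symm_source,
    mem_inter_iff, mem_preimage] at hx'
  change e' (e.symm x) = x
  rw [h2, ← h1, e.right_inv hx'.1]

lemma continuous_pi : Continuous π := by
  rw [continuous_iff_continuousAt]
  intro m
  rw [← coe_chartAt π m]
  exact (chartAt E m).continuousAt (mem_chart_source E m)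

section Source

variable {E' : Type} [NormedAddCommGroup E'] [NormedSpace ℝ E'] {H' : Type} [TopologicalSpace H']
  {I' : ModelWithCorners ℝ E' H'} {N : Type} [TopologicalSpace N] [ChartedSpace H' N]

/-- smoothness of a map to `M` -/
lemma contMDiffAt_to {f : N → M} {x : N} (hc : ContinuousAt f x)
    (hf : ContMDiffAt I' 𝓘(ℝ, E) ∞ (π ∘ f) x) : ContMDiffAt I' 𝓘(ℝ, E) ∞ f x := by
  rw [contMDiffAt_iff_target]
  refine ⟨hc, ?_⟩
  rw [coe_extChartAt π]
  exact hf

/-- derivative of a map to `M` -/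
lemma hasMFDerivAt_to {f : N → M} {x : N} (hc : ContinuousAt f x)
    {f' : TangentSpace I' x →L[ℝ] E}
    (hf : HasMFDerivAt I' 𝓘(ℝ, E) (π ∘ f) x f') : HasMFDerivAt I' 𝓘(ℝ, E) f x f' := by
  refine ⟨hc, ?_⟩
  have h := hf.2
  have e1 : writtenInExtChartAt I' 𝓘(ℝ, E) x f =
      writtenInExtChartAt I' 𝓘(ℝ, E) x (π ∘ f) := by
    funext y
    simp only [writtenInExtChartAt, Function.comp_apply]
    rw [coe_extChartAt π]
    rfl
  rw [e1]
  exact h

end Source

section Target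

variable {F : Type} [NormedAddCommGroup F] [NormedSpace ℝ F]

lemma contMDiff_pi : ContMDiff 𝓘(ℝ, E) 𝓘(ℝ, E) ∞ π := by
  have := isManifold_of_isEtale π
  intro m
  have h := contMDiffAt_extChartAt (I := 𝓘(ℝ, E)) (n := ∞) (x := m)
  rwa [coe_extChartAt π m] at h

lemma hasMFDerivAt_pi (m : M) :
    HasMFDerivAt 𝓘(ℝ, E) 𝓘(ℝ, E) π m (ContinuousLinearMap.id ℝ E) := by
  refine ⟨(continuous_pi π).continuousAt, ?_⟩
  have hev : writtenInExtChartAt 𝓘(ℝ, E) 𝓘(ℝ, E) m π
      =ᶠ[𝓝 (extChartAt 𝓘(ℝ, E) m m)] id := by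
    filter_upwards [(isOpen_extChartAt_target m).mem_nhds (mem_extChartAt_target m)] with y hy
    simp only [writtenInExtChartAt, Function.comp_apply]
    have := (extChartAt 𝓘(ℝ, E) m).right_inv hy
    rw [coe_extChartAt π m] at this
    simp only [id]
    exact this
  have h0 : HasFDerivAt (id : E → E) (ContinuousLinearMap.id ℝ E) (extChartAt 𝓘(ℝ, E) m m) :=
    hasFDerivAt_id _
  exact (h0.congr_of_eventuallyEq hev).hasFDerivWithinAt

/-- smoothness of a function on `M` which is locally a function of `π` -/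
lemma contMDiffAt_from {f : M → F} {g : E → F} {m : M} (h : f =ᶠ[𝓝 m] g ∘ π)
    (hg : ContDiffAt ℝ ∞ g (π m)) : ContMDiffAt 𝓘(ℝ, E) 𝓘(ℝ, F) ∞ f m := by
  have h1 : ContMDiffAt 𝓘(ℝ, E) 𝓘(ℝ, F) ∞ (g ∘ π) m :=
    ContMDiffAt.comp m hg.contMDiffAt (contMDiff_pi π m)
  exact h1.congr_of_eventuallyEq h

lemma hasMFDerivAt_from {f : M → F} {g : E → F} {m : M} (h : f =ᶠ[𝓝 m] g ∘ π)
    {g' : E →L[ℝ] F} (hg : HasFDerivAt g g' (π m)) : HasMFDerivAt 𝓘(ℝ, E) 𝓘(ℝ, F) f m g' := by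
  have h1 : HasMFDerivAt 𝓘(ℝ, E) 𝓘(ℝ, F) (g ∘ π) m (g'.comp (ContinuousLinearMap.id ℝ E)) :=
    HasMFDerivAt.comp m hg.hasMFDerivAt (hasMFDerivAt_pi π m)
  have h2 := h1.congr_of_eventuallyEq h
  exact h2

end Target

/-- smoothness and derivative of a map of `M` which lifts a map of `E` -/
lemma contMDiffAt_lift {f : M → M} {g : E → E} {m : M} (hc : ContinuousAt f m)
    (h : π ∘ f =ᶠ[𝓝 m] g ∘ π) (hg : ContDiffAt ℝ ∞ g (π m)) :
    ContMDiffAt 𝓘(ℝ, E) 𝓘(ℝ, E) ∞ f m :=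
  contMDiffAt_to π hc (contMDiffAt_from π h hg)

lemma hasMFDerivAt_lift {f : M → M} {g : E → E} {m : M} (hc : ContinuousAt f m)
    (h : π ∘ f =ᶠ[𝓝 m] g ∘ π) {g' : E →L[ℝ] E} (hg : HasFDerivAt g g' (π m)) :
    HasMFDerivAt 𝓘(ℝ, E) 𝓘(ℝ, E) f m g' :=
  hasMFDerivAt_to π hc (hasMFDerivAt_from π h hg)

omit hE in
/-- the pullback of a 2-form on `E` -/
def liftForm (π : M → E) (Ω : E → E [⋀^Fin 2]→L[ℝ] ℝ) : TwoForm 𝓘(ℝ, E) M := fun m => Ω (π m)

lemma inChart_liftForm (Ω : E → E [⋀^Fin 2]→L[ℝ] ℝ) (x₀ : M) {y : E}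
    (hy : y ∈ (extChartAt 𝓘(ℝ, E) x₀).target) : (liftForm π Ω).inChart x₀ y = Ω y := by
  have h1 : π ((extChartAt 𝓘(ℝ, E) x₀).symm y) = y := by
    have := (extChartAt 𝓘(ℝ, E) x₀).right_inv hy
    rwa [coe_extChartAt π x₀] at this
  have h2 : HasMFDerivAt 𝓘(ℝ, E) 𝓘(ℝ, E) (extChartAt 𝓘(ℝ, E) x₀).symm y
      (ContinuousLinearMap.id ℝ E) := by
    refine hasMFDerivAt_to π (continuousAt_extChartAt_symm'' hy) ?_
    refine HasFDerivAt.hasMFDerivAt ?_
    have hev : π ∘ (extChartAt 𝓘(ℝ, E) x₀).symm =ᶠ[𝓝 y] id := by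
      filter_upwards [(isOpen_extChartAt_target x₀).mem_nhds hy] with z hz
      have := (extChartAt 𝓘(ℝ, E) x₀).right_inv hz
      rw [coe_extChartAt π x₀] at this
      simpa using this
    exact (hasFDerivAt_id y).congr_of_eventuallyEq hev
  unfold TwoForm.inChart
  rw [h2.mfderiv]
  ext v
  simp only [liftForm]
  rw [h1]
  rfl

/-- A symplectic form on the base lifts to a symplectic form. -/
lemma isSymplectic_liftForm {Ω : E → E [⋀^Fin 2]→L[ℝ] ℝ} {X : Set E} (hπX : ∀ m, π m ∈ X)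
    (hs : ContDiffOn ℝ ∞ Ω X) (hc : ∀ x ∈ X, extDeriv Ω x = 0)
    (hn : ∀ x ∈ X, ∀ v, (∀ w, Ω x ![v, w] = 0) → v = 0) : IsSymplectic (liftForm π Ω) := by
  have hsub : ∀ x₀ : M, (extChartAt 𝓘(ℝ, E) x₀).target ⊆ X := by
    intro x₀ y hy
    have := (extChartAt 𝓘(ℝ, E) x₀).right_inv hy
    rw [coe_extChartAt π x₀] at this
    rw [← this]
    exact hπX _
  refine ⟨?_, ?_, ?_⟩
  · intro x₀
    exact (hs.mono (hsub x₀)).congr fun y hy => inChart_liftForm π Ω x₀ hy
  · intro x₀ y hy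
    have hev : (liftForm π Ω).inChart x₀ =ᶠ[𝓝 y] Ω := by
      filter_upwards [(isOpen_extChartAt_target x₀).mem_nhds hy] with z hz
      exact inChart_liftForm π Ω x₀ hz
    rw [hev.extDeriv_eq]
    exact hc y (hsub x₀ hy)
  · intro x v h
    exact hn (π x) (hπX x) v h

end Pool.Agent.H844R2.AG
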