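import Pool.Agent.H844R2.AG.Defs

/-!
# The total Betti number of a nonempty path connected space is at least one
-/

open CategoryTheory AlgebraicTopology

noncomputable section

namespace Pool.Agent.H844R2.AG

lemma isIso_epsilon (X : TopCat.{0}) [PathConnectedSpace X] :
    IsIso (X.singularHomology₀ε (ModuleCat.of (ZMod 2) (ZMod 2))) := inferInstance

theorem one_le_totalBetti (X : Type) [TopologicalSpace X] [hX : PathConnectedSpace X] :
    1 ≤ totalBetti X := by
  have : PathConnectedSpace (TopCat.of X) := hX
  have hi := isIso_epsilon (TopCat.of X)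
  have e : homologyZ2 0 X ≅ ModuleCat.of (ZMod 2) (ZMod 2) :=
    @asIso _ _ _ _ ((TopCat.of X).singularHomology₀ε (ModuleCat.of (ZMod 2) (ZMod 2))) hi
  have h1 : Module.rank (ZMod 2) (homologyZ2 0 X) = 1 := by
    have h := e.toLinearEquiv.rank_eq
    rw [h]
    exact Module.rank_self (ZMod 2)
  have h2 := Cardinal.le_sum (fun n : ℕ => Module.rank (ZMod 2) (homologyZ2 n X)) 0
  rw [h1] at h2
  exact h2

end Pool.Agent.H844R2.AG
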