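import Pool.Agent.H844R2.AG.Data
import Pool.Agent.H844R2.AG.Cut
import Pool.Agent.H844R2.AG.Homology

/-!
# The counterexample
-/

open scoped ContDiff Topology Manifold
open Set Filter Metric

noncomputable section

namespace Pool.Agent.H844R2.AG

lemma sl_sw (i : Fin 3) : sl (sw i) = -sl i := by
  fin_cases i <;> simp [sl, sw]

/-- the gluing data of the counterexample -/
structure Setup (D : GlueData (ℂ × ℂ)) : Prop where
  X_eq : D.X = XX
  k_eq : D.k = kk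
  sub : ∀ i, VV i ⊆ D.T i
  ta_mem : ∀ i, ∀ x ∈ D.T i, ta x ∈ D.T (sw i)
  conn : ∀ i, IsPreconnected (D.T i)

theorem exists_setup : ∃ D : GlueData (ℂ × ℂ), Setup D := by
  obtain ⟨T, hTo, hTX, hVT, hsep, hta, hconn⟩ := exists_T
  obtain ⟨v, hv⟩ := VV_nonempty 0
  exact ⟨⟨XX, isOpen_XX, T, hTo, hTX, kk, continuousOn_kk, hsep, v, hVT 0 hv⟩,
    ⟨rfl, rfl, hVT, hta, hconn⟩⟩

variable {D : GlueData (ℂ × ℂ)} (S : Setup D)

include S

lemma Setup.T_sub (i : Fin 3) : D.T i ⊆ XX := by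
  rw [← S.X_eq]; exact D.subset_X i

lemma Setup.pr_mem (m : D.Sp) : D.pr m ∈ XX := by
  rw [← S.X_eq]; exact D.pr_mem m

lemma Setup.symplectic : IsSymplectic (liftForm (M := D.Sp) D.pr Om) :=
  isSymplectic_liftForm D.pr S.pr_mem contDiffOn_Om (fun _ hx => extDeriv_Om hx)
    (fun _ hx v h => Om_nondegenerate hx v h)

lemma Setup.ht_ta {i : Fin 3} {x : ℂ × ℂ} (hx : x ∈ D.T i) : D.ht (sw i) (ta x) = -D.ht i x := by
  unfold GlueData.ht
  rw [sl_sw, S.k_eq, kk_ta (S.T_sub i hx)]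
  ring

/-- the involution -/
def Setup.tau (m : D.Sp) : D.Sp :=
  ⟨(ta (D.pr m), -D.hh m), by
    obtain ⟨i, hi⟩ := D.exists_sheet m
    refine ⟨sw i, S.ta_mem i _ hi.1, ?_⟩
    change -D.hh m = _
    rw [S.ht_ta hi.1, hi.2]⟩

lemma Setup.pr_tau (m : D.Sp) : D.pr (S.tau m) = ta (D.pr m) := rfl

lemma Setup.hh_tau (m : D.Sp) : D.hh (S.tau m) = -D.hh m := rfl

lemma Setup.continuous_tau : Continuous S.tau := by
  have h1 : Continuous fun m : D.Sp => ta (D.pr m) := by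
    rw [continuous_iff_continuousAt]
    intro m
    exact ContinuousAt.comp (g := ta)
      (contDiffOn_ta.continuousOn.continuousAt (isOpen_XX.mem_nhds (S.pr_mem m)))
      D.continuous_pr.continuousAt
  exact Continuous.subtype_mk (h1.prodMk D.continuous_hh.neg) _

lemma Setup.anti : IsAntiSymplecticInvolution (liftForm (M := D.Sp) D.pr Om) S.tau := by
  refine ⟨?_, ?_, ?_⟩
  · intro m
    refine contMDiffAt_lift D.pr S.continuous_tau.continuousAt (g := ta) ?_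
      (contDiffOn_ta.contDiffAt (isOpen_XX.mem_nhds (S.pr_mem m)))
    exact Eventually.of_forall fun _ => rfl
  · intro m
    apply D.ext'
    · rw [S.pr_tau, S.pr_tau, ta_ta (S.pr_mem m)]
    · rw [S.hh_tau, S.hh_tau, neg_neg]
  · intro m v w
    have h1 : HasMFDerivAt 𝓘(ℝ, ℂ × ℂ) 𝓘(ℝ, ℂ × ℂ) S.tau m (fderiv ℝ ta (D.pr m)) := by
      refine hasMFDerivAt_lift D.pr S.continuous_tau.continuousAt (g := ta) ?_ ?_
      · exact Eventually.of_forall fun _ => rfl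
      · exact ((contDiffOn_ta.contDiffAt (isOpen_XX.mem_nhds (S.pr_mem m))).differentiableAt
          (by simp)).hasFDerivAt
    rw [h1.mfderiv]
    exact ta_anti (S.pr_mem m) v w

omit S in
lemma ta1_eq_iff {z : ℂ} (hz : 0 < r2 z) : ta1 z = z ↔ r2 z = 1 := by
  constructor
  · intro h
    have h1 := r2_ta1 hz
    rw [h] at h1
    have h2 : r2 z * r2 z = 1 := by
      nth_rewrite 1 [h1]
      exact inv_mul_cancel₀ hz.ne'
    nlinarith
  · intro h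
    unfold ta1
    rw [h, inv_one, one_smul]

lemma Setup.tau_eq_iff (m : D.Sp) : S.tau m = m ↔ D.pr m ∈ TT ∧ D.hh m = 0 := by
  constructor
  · intro h
    have h1 : ta (D.pr m) = D.pr m := by rw [← S.pr_tau, h]
    have h2 : -D.hh m = D.hh m := by rw [← S.hh_tau, h]
    have hX := S.pr_mem m
    refine ⟨⟨(ta1_eq_iff hX.1).mp (congrArg Prod.fst h1), (ta1_eq_iff hX.2).mp (congrArg Prod.snd h1)⟩, ?_⟩
    linarith
  · rintro ⟨h1, h2⟩
    have hX := S.pr_mem m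
    apply D.ext'
    · rw [S.pr_tau]
      exact Prod.ext ((ta1_eq_iff hX.1).mpr h1.1) ((ta1_eq_iff hX.2).mpr h1.2)
    · rw [S.hh_tau, h2, neg_zero]

omit S in
lemma TT_sub_V0 : TT ⊆ V0 := by
  intro ζ hζ
  refine ⟨(ζ, 0), ⟨hζ, by norm_num⟩, ?_⟩
  simp [tr]

lemma Setup.TT_sub : TT ⊆ D.T 0 := TT_sub_V0.trans (S.sub 0)

omit S in
lemma ht_zero (x : ℂ × ℂ) : D.ht 0 x = 0 := by simp [GlueData.ht, sl]

lemma Setup.sec_fix {ζ : ℂ × ℂ} (hζ : ζ ∈ TT) : S.tau (D.sec 0 ζ) = D.sec 0 ζ := by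
  rw [S.tau_eq_iff, D.pr_sec (S.TT_sub hζ), D.hh_sec (S.TT_sub hζ)]
  exact ⟨hζ, ht_zero _⟩

lemma Setup.fix_eq_sec {m : D.Sp} (hm : S.tau m = m) : m = D.sec 0 (D.pr m) := by
  rw [S.tau_eq_iff] at hm
  apply D.ext'
  · rw [D.pr_sec (S.TT_sub hm.1)]
  · rw [D.hh_sec (S.TT_sub hm.1), hm.2, ht_zero]

/-- the fixed point set is a torus -/
def Setup.homeo : {m : D.Sp | S.tau m = m} ≃ₜ TT where
  toFun m := ⟨D.pr m.1, ((S.tau_eq_iff m.1).mp m.2).1⟩
  invFun ζ := ⟨D.sec 0 ζ.1, S.sec_fix ζ.2⟩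
  left_inv m := Subtype.ext (S.fix_eq_sec m.2).symm
  right_inv ζ := Subtype.ext (D.pr_sec (S.TT_sub ζ.2))
  continuous_toFun := (D.continuous_pr.comp continuous_subtype_val).subtype_mk _
  continuous_invFun := by
    refine Continuous.subtype_mk ?_ _
    rw [continuous_iff_continuousAt]
    intro ζ
    exact ContinuousAt.comp (g := D.sec 0) (D.continuousAt_sec (S.TT_sub ζ.2))
      continuousAt_subtype_val

lemma Setup.compact : IsCompact {m : D.Sp | S.tau m = m} := by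
  rw [isCompact_iff_compactSpace]
  have : CompactSpace TT := isCompact_iff_compactSpace.mp isCompact_TT
  exact S.homeo.symm.compactSpace

omit S in
/-- the torus as a product of two circles -/
def torusHomeo : TT ≃ₜ sphere (0 : ℂ) 1 × sphere (0 : ℂ) 1 :=
  (Homeomorph.setCongr TT_eq).trans (Homeomorph.Set.prod _ _)

omit S in
lemma tr_zero (ζ : ℂ × ℂ) : tr ζ 0 0 = ζ := by simp [tr]

omit S in
lemma WW_pos {c : ℝ} (h1 : -1 ≤ c) (h2 : c ≤ 1 / 8) : 0 < WW c := by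
  unfold WW
  nlinarith [mul_nonneg (by linarith : 0 ≤ c + 1) (by linarith : 0 ≤ 1 / 8 - c)]

omit S in
lemma re_mem {z : ℂ} (hz : r2 z = 1) : -1 ≤ z.re ∧ z.re ≤ 1 := by
  unfold r2 at hz
  constructor <;> nlinarith [sq_nonneg z.im]

omit S in
lemma exp_eq_one {z : ℂ} (hz : r2 z = 1) {a : ℝ} (h : r2 (Real.exp a • z) = 1) : a = 0 := by
  rw [r2_smul, hz, mul_one] at h
  have h1 := Real.exp_pos a
  have h2 : Real.exp a = 1 := by nlinarith
  exact (Real.exp_eq_one_iff a).mp h2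

/-- the displacement -/
theorem Setup.displace : ∃ φ ∈ Ham (liftForm (M := D.Sp) D.pr Om),
    ∀ m, S.tau m = m → S.tau (φ m) ≠ φ m := by
  obtain ⟨φ₀, h₀, m₀⟩ := exists_push D 0 (S.T_sub 0) (isCompact_VV 0) (S.sub 0) (-1) 0 1 0
  obtain ⟨φ₁, h₁, m₁⟩ := exists_push D 1 (S.T_sub 1) (isCompact_VV 1) (S.sub 1) (3 / 2) 0 (-1 / 2) 0
  obtain ⟨φ₂, h₂, m₂⟩ := exists_push D 1 (S.T_sub 1) (isCompact_VV 1) (S.sub 1)
    (-3 / 4) (-1 / 8) (-3 / 4) (-1 / 8)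
  refine ⟨φ₂ ∘ φ₁ ∘ φ₀, PHam_subset _ (PHam.comp S.symplectic (PHam.comp S.symplectic h₀ h₁) h₂), ?_⟩
  intro m hm
  set ζ := D.pr m with hζdef
  have hζ : ζ ∈ TT := ((S.tau_eq_iff m).mp hm).1
  set C := ζ.1.re with hC
  set E := ζ.2.re with hE
  have e0 : m = D.sec 0 (tr ζ 0 0) := by rw [tr_zero]; exact S.fix_eq_sec hm
  have s0 : φ₀ m = D.sec 0 (tr ζ (-C) E) := by
    rw [e0, m₀ ζ hζ 0 0 ?_]
    · congr 2 <;> simp [gg, hC, hE]
    · intro t ht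
      refine ⟨(ζ, t), ⟨hζ, by constructor <;> linarith [ht.1, ht.2]⟩, ?_⟩
      simp only [gg]
      congr 1 <;> ring
  have v0 : tr ζ (-C) E ∈ VV 0 := by
    refine ⟨(ζ, 1), ⟨hζ, by norm_num⟩, ?_⟩
    simp only
    congr 1 <;> ring
  have v1 : tr ζ (-C) E ∈ VV 1 := by
    refine Or.inl ⟨(ζ, 0), ⟨hζ, by norm_num⟩, ?_⟩
    simp only
    congr 1 <;> ring
  have k1 : D.k (tr ζ (-C) E) ≤ 0 := by
    rw [S.k_eq]
    refine ((min_le_right _ _).trans (min_le_left _ _)).trans ?_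
    change cc (Real.exp (-C) • ζ.1) / 2 - |pp (Real.exp (-C) • ζ.1)| ≤ 0
    rw [cc_exp hζ.1, pp_exp hζ.1, abs_neg]
    have := le_abs_self C
    have := abs_nonneg C
    linarith
  have s1 : φ₁ (φ₀ m) = D.sec 1 (tr ζ (C / 2) (E / 2)) := by
    rw [s0, D.sec_eq_sec (S.sub 0 v0) (S.sub 1 v1) k1, m₁ ζ hζ (-C) E ?_]
    · congr 2 <;> simp only [gg] <;> ring
    · intro t ht
      refine Or.inl ⟨(ζ, t), ⟨hζ, ht⟩, ?_⟩
      simp only [gg]
      congr 1 <;> ring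
  have s2 : φ₂ (φ₁ (φ₀ m)) = D.sec 1 (tr ζ (WW C / 8) (WW E / 8)) := by
    rw [s1, m₂ ζ hζ (C / 2) (E / 2) ?_]
    · congr 2 <;> simp only [gg, WW] <;> ring
    · intro t ht
      refine Or.inr ⟨(ζ, t), ⟨hζ, ht⟩, ?_⟩
      simp only [gg, WW]
      congr 1 <;> ring
  have v2 : tr ζ (WW C / 8) (WW E / 8) ∈ VV 1 := by
    refine Or.inr ⟨(ζ, 1), ⟨hζ, by norm_num⟩, ?_⟩
    simp only
    congr 1 <;> ring
  intro hfix
  change S.tau (φ₂ (φ₁ (φ₀ m))) = φ₂ (φ₁ (φ₀ m)) at hfix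
  rw [s2, S.tau_eq_iff, D.pr_sec (S.sub 1 v2), D.hh_sec (S.sub 1 v2)] at hfix
  obtain ⟨hT, hh⟩ := hfix
  have w1 : WW C / 8 = 0 := exp_eq_one hζ.1 hT.1
  have w2 : WW E / 8 = 0 := exp_eq_one hζ.2 hT.2
  have c1 : 1 / 8 < C := by
    by_contra hn
    push Not at hn
    have := WW_pos (re_mem hζ.1).1 hn
    linarith
  have c2 : 1 / 8 < E := by
    by_contra hn
    push Not at hn
    have := WW_pos (re_mem hζ.2).1 hn
    linarith
  have hk : 0 < D.k (tr ζ (WW C / 8) (WW E / 8)) := by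
    rw [S.k_eq, w1, w2, tr_zero]
    refine lt_min (lt_min ?_ ?_) (lt_min ?_ ?_)
    · rw [cc_unit hζ.1]; linarith
    · rw [cc_unit hζ.2]; linarith
    · rw [cc_unit hζ.1, pp_unit hζ.1, abs_zero]; linarith
    · rw [cc_unit hζ.2, pp_unit hζ.2, abs_zero]; linarith
  unfold GlueData.ht at hh
  rw [max_eq_right hk.le] at hh
  simp [sl] at hh
  linarith

/-- connectedness -/
theorem Setup.connected : ConnectedSpace D.Sp := by
  have hpre : ∀ i, IsPreconnected (D.sheet i) := by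
    intro i
    have h1 : D.sheet i = D.sec i '' D.T i := by
      ext m
      constructor
      · intro hm
        exact ⟨D.pr m, hm.1, D.sec_pr hm⟩
      · rintro ⟨x, hx, rfl⟩
        exact D.sec_mem hx
    rw [h1]
    exact (S.conn i).image _ fun x hx => (D.continuousAt_sec hx).continuousWithinAt
  obtain ⟨ζ, hζ⟩ := TT_nonempty
  set C := ζ.1.re with hC
  set E := ζ.2.re with hE
  have v0 : tr ζ (-C) E ∈ VV 0 := by
    refine ⟨(ζ, 1), ⟨hζ, by norm_num⟩, ?_⟩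
    simp only
    congr 1 <;> ring
  have v1 : tr ζ (-C) E ∈ VV 1 := by
    refine Or.inl ⟨(ζ, 0), ⟨hζ, by norm_num⟩, ?_⟩
    simp only
    congr 1 <;> ring
  have k1 : D.k (tr ζ (-C) E) ≤ 0 := by
    rw [S.k_eq]
    refine ((min_le_right _ _).trans (min_le_left _ _)).trans ?_
    change cc (Real.exp (-C) • ζ.1) / 2 - |pp (Real.exp (-C) • ζ.1)| ≤ 0
    rw [cc_exp hζ.1, pp_exp hζ.1, abs_neg]
    have := le_abs_self C
    have := abs_nonneg C
    linarith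
  have hX0 := S.T_sub 0 (S.sub 0 v0)
  have hm0 := D.sec_mem (S.sub 0 v0)
  have hm1 : D.sec 0 (tr ζ (-C) E) ∈ D.sheet 1 := by
    rw [D.sec_eq_sec (S.sub 0 v0) (S.sub 1 v1) k1]
    exact D.sec_mem (S.sub 1 v1)
  have w0 : ta (tr ζ (-C) E) ∈ D.T 0 := S.ta_mem 0 _ (S.sub 0 v0)
  have w2 : ta (tr ζ (-C) E) ∈ D.T 2 := S.ta_mem 1 _ (S.sub 1 v1)
  have k2 : D.k (ta (tr ζ (-C) E)) ≤ 0 := by
    rw [S.k_eq, kk_ta hX0, ← S.k_eq]; exact k1
  have hn0 := D.sec_mem w0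
  have hn2 : D.sec 0 (ta (tr ζ (-C) E)) ∈ D.sheet 2 := by
    rw [D.sec_eq_sec w0 w2 k2]
    exact D.sec_mem w2
  have u1 : IsPreconnected (D.sheet 0 ∪ D.sheet 1) := (hpre 0).union _ hm0 hm1 (hpre 1)
  have u2 : IsPreconnected (D.sheet 0 ∪ D.sheet 1 ∪ D.sheet 2) :=
    u1.union _ (Or.inl hn0) hn2 (hpre 2)
  have u3 : D.sheet 0 ∪ D.sheet 1 ∪ D.sheet 2 = univ := by
    rw [eq_univ_iff_forall]
    intro m
    obtain ⟨i, hi⟩ := D.exists_mem_sheet m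
    fin_cases i
    · exact Or.inl (Or.inl hi)
    · exact Or.inl (Or.inr hi)
    · exact Or.inr hi
  rw [u3] at u2
  have : PreconnectedSpace D.Sp := ⟨u2⟩
  exact { toNonempty := ⟨D.pt⟩ }

end Pool.Agent.H844R2.AG
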