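import Pool.Agent.H844R2.AG.Defs

/-!
# Composition of Hamiltonian diffeomorphisms
-/

open scoped Manifold ContDiff Topology
open Set Filter

noncomputable section

namespace Pool.Agent.H844R2.AG

variable {E : Type} [NormedAddCommGroup E] [NormedSpace ℝ E]
  {H : Type} [TopologicalSpace H] {I : ModelWithCorners ℝ E H}
  {M : Type} [TopologicalSpace M] [ChartedSpace H M]

/-- the value of a form at a point, on the model space -/
def formAt (η : TwoForm I M) (x : M) : E [⋀^Fin 2]→L[ℝ] ℝ := η x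

variable (I) in
/-- the differential of a function at a point, on the model space -/
def dAt (g : M → ℝ) (x : M) : E →L[ℝ] ℝ := mfderiv I 𝓘(ℝ, ℝ) g x

/-- the curve `c` has velocity `X` at time `t`, the Hamiltonian vector of `g` at `c t` -/
def FlowAt (η : TwoForm I M) (g : M → ℝ) (c : ℝ → M) (t : ℝ) (X : E) : Prop :=
  HasMFDerivAt 𝓘(ℝ, ℝ) I c t (((1 : ℝ →L[ℝ] ℝ).smulRight X : ℝ →L[ℝ] E)) ∧
    ∀ w : E, formAt η (c t) ![X, w] = dAt I g (c t) w

lemma FlowAt.congr {η : TwoForm I M} {g : M → ℝ} {c c' : ℝ → M} {t : ℝ} {X : E}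
    (h : FlowAt η g c t X) (he : c' =ᶠ[𝓝 t] c) : FlowAt η g c' t X := by
  have h0 : c' t = c t := he.eq_of_nhds
  refine ⟨HasMFDerivAt.congr_of_eventuallyEq h.1 he, ?_⟩
  intro w
  have := h.2 w
  rw [← h0] at this
  exact this

lemma FlowAt.rescale {η : TwoForm I M} {g : M → ℝ} {c : ℝ → M} {a : ℝ → ℝ} {a' t : ℝ} {X : E}
    (h : FlowAt η g c (a t) X) (ha : HasDerivAt a a' t) (hg : MDifferentiable I 𝓘(ℝ, ℝ) g) :
    FlowAt η (fun x => a' * g x) (fun s => c (a s)) t (a' • X) := by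
  constructor
  · have h1 : HasMFDerivAt 𝓘(ℝ, ℝ) 𝓘(ℝ, ℝ) a t ((1 : ℝ →L[ℝ] ℝ).smulRight a') :=
      ha.hasFDerivAt.hasMFDerivAt
    have h2 := HasMFDerivAt.comp t h.1 h1
    have e : (((1 : ℝ →L[ℝ] ℝ).smulRight X : ℝ →L[ℝ] E)).comp ((1 : ℝ →L[ℝ] ℝ).smulRight a') =
        ((1 : ℝ →L[ℝ] ℝ).smulRight (a' • X) : ℝ →L[ℝ] E) := by
      ext
      simp
    rw [← e]
    exact h2
  · intro w
    have h3 : HasMFDerivAt I 𝓘(ℝ, ℝ) (a' • g) (c (a t)) (a' • mfderiv I 𝓘(ℝ, ℝ) g (c (a t))) :=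
      (hg (c (a t))).hasMFDerivAt.const_smul a'
    have h4 : dAt I (fun x => a' * g x) (c (a t)) = a' • dAt I g (c (a t)) := h3.mfderiv
    have h6 := (formAt η (c (a t))).map_update_smul ![X, w] 0 a' X
    have e1 : Function.update ![X, w] 0 (a' • X) = ![a' • X, w] := by
      ext i; fin_cases i <;> simp
    have e2 : Function.update ![X, w] 0 X = ![X, w] := by
      ext i; fin_cases i <;> simp
    rw [e1, e2] at h6
    rw [h4, _root_.smul_apply, ← h.2 w]
    exact h6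

/-- a Hamiltonian flow which is stationary outside the time interval `[0,1]` -/
structure HamPath (η : TwoForm I M) (h : ℝ → M → ℝ) (Φ : ℝ → M → M) : Prop where
  base : IsHamiltonianFlow η h Φ
  left : ∀ t ≤ 0, ∀ x, h t x = 0
  leftΦ : ∀ t ≤ 0, ∀ x, Φ t x = x
  right : ∀ t, 1 ≤ t → ∀ x, h t x = 0
  rightΦ : ∀ t, 1 ≤ t → ∀ x, Φ t x = Φ 1 x

/-- time-one maps of stationary Hamiltonian paths -/
def PHam (η : TwoForm I M) : Set (M → M) :=
  {φ | ∃ (h : ℝ → M → ℝ) (Φ : ℝ → M → M), HamPath η h Φ ∧ ∀ x, Φ 1 x = φ x}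

lemma PHam_subset (η : TwoForm I M) : PHam η ⊆ Ham η := by
  rintro φ ⟨h, Φ, hp, hx⟩
  exact ⟨h, Φ, hp.base, hx⟩

lemma IsHamiltonianFlow.flowAt {η : TwoForm I M} {h : ℝ → M → ℝ} {Φ : ℝ → M → M}
    (hf : IsHamiltonianFlow η h Φ) (t : ℝ) (x : M) :
    ∃ X : E, FlowAt η (h t) (fun s => Φ s x) t X := hf.flow t x

lemma IsHamiltonianFlow.slice {η : TwoForm I M} {h : ℝ → M → ℝ} {Φ : ℝ → M → M}
    (hf : IsHamiltonianFlow η h Φ) (t : ℝ) : MDifferentiable I 𝓘(ℝ, ℝ) (h t) := by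
  intro x
  have h1 : ContMDiff I (𝓘(ℝ, ℝ).prod I) ∞ (fun x : M => (t, x)) :=
    contMDiff_const.prodMk contMDiff_id
  have h2 := hf.smooth.comp h1
  exact (h2 x).mdifferentiableAt (by simp)

lemma flowAt_zero {η : TwoForm I M} (hη : IsSymplectic η) {g : M → ℝ} {c : ℝ → M} {t : ℝ} {X : E}
    (h : FlowAt η g c t X) (hg : ∀ x, g x = 0) : X = 0 := by
  refine hη.nondegenerate (c t) X ?_
  intro w
  have h1 := h.2 w
  have h2 : g = fun _ => 0 := funext hg
  subst h2
  have h3 : dAt I (fun _ : M => (0 : ℝ)) (c t) = 0 := mfderiv_const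
  rw [h3] at h1
  exact h1

lemma HamPath.comp {η : TwoForm I M} (hη : IsSymplectic η) {h h' : ℝ → M → ℝ}
    {Φ Φ' : ℝ → M → M} (hp : HamPath η h Φ) (hp' : HamPath η h' Φ') :
    HamPath η (fun t x => 2 * h (2 * t) x + 2 * h' (2 * t - 1) x)
      (fun t x => Φ' (2 * t - 1) (Φ (2 * t) x)) := by
  have hl : ∀ t ≤ (1 / 2 : ℝ), ∀ x, Φ' (2 * t - 1) (Φ (2 * t) x) = Φ (2 * t) x := by
    intro t ht x
    exact hp'.leftΦ _ (by linarith) _
  have hr : ∀ t, (1 / 2 : ℝ) ≤ t → ∀ x, Φ' (2 * t - 1) (Φ (2 * t) x) = Φ' (2 * t - 1) (Φ 1 x) := by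
    intro t ht x
    rw [hp.rightΦ (2 * t) (by linarith) x]
  have d1 : ∀ t : ℝ, HasDerivAt (fun s : ℝ => 2 * s) 2 t := by
    intro t
    simpa using (hasDerivAt_id t).const_mul (2 : ℝ)
  have d2 : ∀ t : ℝ, HasDerivAt (fun s : ℝ => 2 * s - 1) 2 t := fun t => (d1 t).sub_const 1
  have hgl : ∀ t ≤ (1 / 2 : ℝ), (fun x => 2 * h (2 * t) x + 2 * h' (2 * t - 1) x) =
      fun x => 2 * h (2 * t) x := by
    intro t ht
    funext x
    rw [hp'.left (2 * t - 1) (by linarith) x]; ring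
  have hgr : ∀ t, (1 / 2 : ℝ) ≤ t → (fun x => 2 * h (2 * t) x + 2 * h' (2 * t - 1) x) =
      fun x => 2 * h' (2 * t - 1) x := by
    intro t ht
    funext x
    rw [hp.right (2 * t) (by linarith) x]; ring
  refine ⟨⟨?_, ?_, ?_, ?_⟩, ?_, ?_, ?_, ?_⟩
  · have e1 : ContMDiff (𝓘(ℝ, ℝ).prod I) (𝓘(ℝ, ℝ).prod I) ∞
        (fun p : ℝ × M => ((2 * p.1 : ℝ), p.2)) := by
      refine ContMDiff.prodMk ?_ contMDiff_snd
      have : ContMDiff 𝓘(ℝ, ℝ) 𝓘(ℝ, ℝ) ∞ (fun s : ℝ => 2 * s) :=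
        (contDiff_const.mul contDiff_id).contMDiff
      exact this.comp contMDiff_fst
    have e2 : ContMDiff (𝓘(ℝ, ℝ).prod I) (𝓘(ℝ, ℝ).prod I) ∞
        (fun p : ℝ × M => ((2 * p.1 - 1 : ℝ), p.2)) := by
      refine ContMDiff.prodMk ?_ contMDiff_snd
      have : ContMDiff 𝓘(ℝ, ℝ) 𝓘(ℝ, ℝ) ∞ (fun s : ℝ => 2 * s - 1) :=
        ((contDiff_const.mul contDiff_id).sub contDiff_const).contMDiff
      exact this.comp contMDiff_fst
    have f1 := hp.base.smooth.comp e1
    have f2 := hp'.base.smooth.comp e2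
    have g1 : ContMDiff 𝓘(ℝ, ℝ) 𝓘(ℝ, ℝ) ∞ (fun s : ℝ => 2 * s) :=
      (contDiff_const.mul contDiff_id).contMDiff
    exact (g1.comp f1).add (g1.comp f2)
  · obtain ⟨K, hK, hK'⟩ := hp.base.support
    obtain ⟨J, hJ, hJ'⟩ := hp'.base.support
    refine ⟨K ∪ J, hK.union hJ, ?_⟩
    intro t x hx
    rw [mem_union, not_or] at hx
    rw [hK' _ _ hx.1, hJ' _ _ hx.2]; ring
  · intro x
    rw [hl 0 (by norm_num), mul_zero]
    exact hp.base.zero x
  · intro t x
    change ∃ X : E, FlowAt η (fun x => 2 * h (2 * t) x + 2 * h' (2 * t - 1) x)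
      (fun s => Φ' (2 * s - 1) (Φ (2 * s) x)) t X
    rcases lt_trichotomy t (1 / 2) with ht | ht | ht
    · obtain ⟨X, hX⟩ := hp.base.flowAt (2 * t) x
      refine ⟨(2 : ℝ) • X, ?_⟩
      rw [hgl t ht.le]
      have := FlowAt.rescale (a := fun s => 2 * s) hX (d1 t) (hp.base.slice (2 * t))
      refine this.congr ?_
      filter_upwards [Iio_mem_nhds ht] with s hs
      exact hl s (le_of_lt hs) x
    · refine ⟨0, ?_⟩
      rw [hgl t ht.le]
      obtain ⟨X, hX⟩ := hp.base.flowAt (2 * t) x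
      have hX0 : X = 0 := flowAt_zero hη hX (hp.right (2 * t) (by linarith))
      subst hX0
      have a1 := FlowAt.rescale (a := fun s => 2 * s) hX (d1 t) (hp.base.slice (2 * t))
      obtain ⟨Y, hY⟩ := hp'.base.flowAt (2 * t - 1) (Φ 1 x)
      have hY0 : Y = 0 := flowAt_zero hη hY (hp'.left (2 * t - 1) (by linarith))
      subst hY0
      have a2 := FlowAt.rescale (a := fun s => 2 * s - 1) hY (d2 t) (hp'.base.slice (2 * t - 1))
      rw [smul_zero] at a1 a2
      have hct : Φ' (2 * t - 1) (Φ (2 * t) x) = Φ (2 * t) x := hl t ht.le x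
      constructor
      · have b1 := a1.1.hasMFDerivWithinAt (s := Iic t)
        have b2 := a2.1.hasMFDerivWithinAt (s := Ici t)
        have c1 : HasMFDerivWithinAt 𝓘(ℝ, ℝ) I (fun s => Φ' (2 * s - 1) (Φ (2 * s) x)) (Iic t) t
            (((1 : ℝ →L[ℝ] ℝ).smulRight (0 : E) : ℝ →L[ℝ] E)) := by
          refine b1.congr_of_eventuallyEq ?_ ?_
          · filter_upwards [self_mem_nhdsWithin] with s hs
            exact hl s (le_trans hs ht.le) x
          · exact hl t ht.le x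
        have c2 : HasMFDerivWithinAt 𝓘(ℝ, ℝ) I (fun s => Φ' (2 * s - 1) (Φ (2 * s) x)) (Ici t) t
            (((1 : ℝ →L[ℝ] ℝ).smulRight (0 : E) : ℝ →L[ℝ] E)) := by
          refine b2.congr_of_eventuallyEq ?_ ?_
          · filter_upwards [self_mem_nhdsWithin] with s hs
            exact hr s (le_trans ht.ge hs) x
          · exact hr t ht.ge x
        have c3 := c1.union c2
        rw [Iic_union_Ici] at c3
        exact hasMFDerivWithinAt_univ.mp c3
      · intro w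
        have := a1.2 w
        change formAt η (Φ' (2 * t - 1) (Φ (2 * t) x)) ![0, w] =
          dAt I (fun x => 2 * h (2 * t) x) (Φ' (2 * t - 1) (Φ (2 * t) x)) w
        rw [hct]
        exact this
    · obtain ⟨Y, hY⟩ := hp'.base.flowAt (2 * t - 1) (Φ 1 x)
      refine ⟨(2 : ℝ) • Y, ?_⟩
      rw [hgr t ht.le]
      have := FlowAt.rescale (a := fun s => 2 * s - 1) hY (d2 t) (hp'.base.slice (2 * t - 1))
      refine this.congr ?_
      filter_upwards [Ioi_mem_nhds ht] with s hs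
      exact hr s (le_of_lt hs) x
  · intro t ht x
    rw [hp.left (2 * t) (by linarith), hp'.left (2 * t - 1) (by linarith)]; ring
  · intro t ht x
    rw [hl t (by linarith)]
    exact hp.leftΦ _ (by linarith) x
  · intro t ht x
    rw [hp.right (2 * t) (by linarith), hp'.right (2 * t - 1) (by linarith)]; ring
  · intro t ht x
    rw [hp.rightΦ (2 * t) (by linarith), hp'.rightΦ (2 * t - 1) (by linarith),
      hp.rightΦ (2 * 1) (by norm_num), hp'.rightΦ (2 * 1 - 1) (by norm_num)]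

lemma PHam.comp {η : TwoForm I M} (hη : IsSymplectic η) {φ ψ : M → M} (hφ : φ ∈ PHam η)
    (hψ : ψ ∈ PHam η) : ψ ∘ φ ∈ PHam η := by
  obtain ⟨h, Φ, hp, hx⟩ := hφ
  obtain ⟨h', Φ', hp', hx'⟩ := hψ
  refine ⟨_, _, HamPath.comp hη hp hp', ?_⟩
  intro x
  change Φ' (2 * 1 - 1) (Φ (2 * 1) x) = ψ (φ x)
  rw [hp.rightΦ (2 * 1) (by norm_num), hx, hp'.rightΦ (2 * 1 - 1) (by norm_num), hx']

lemma deriv_smoothTransition_left {t : ℝ} (ht : t ≤ 0) : deriv Real.smoothTransition t = 0 := by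
  have hc : Continuous (deriv Real.smoothTransition) :=
    (Real.smoothTransition.contDiff (n := 1)).continuous_deriv le_rfl
  have h1 : EqOn (deriv Real.smoothTransition) 0 (Iio 0) := by
    intro s hs
    have : Real.smoothTransition =ᶠ[𝓝 s] fun _ => 0 := by
      filter_upwards [Iio_mem_nhds hs] with r hr
      exact Real.smoothTransition.zero_of_nonpos (le_of_lt hr)
    rw [this.deriv_eq]; simp
  have h2 := h1.closure hc continuous_zero
  have h3 : t ∈ closure (Iio (0 : ℝ)) := by rw [closure_Iio]; exact ht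
  exact h2 h3

lemma deriv_smoothTransition_right {t : ℝ} (ht : 1 ≤ t) : deriv Real.smoothTransition t = 0 := by
  have hc : Continuous (deriv Real.smoothTransition) :=
    (Real.smoothTransition.contDiff (n := 1)).continuous_deriv le_rfl
  have h1 : EqOn (deriv Real.smoothTransition) 0 (Ioi 1) := by
    intro s hs
    have : Real.smoothTransition =ᶠ[𝓝 s] fun _ => 1 := by
      filter_upwards [Ioi_mem_nhds hs] with r hr
      exact Real.smoothTransition.one_of_one_le (le_of_lt hr)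
    rw [this.deriv_eq]; simp
  have h2 := h1.closure hc continuous_zero
  have h3 : t ∈ closure (Ioi (1 : ℝ)) := by rw [closure_Ioi]; exact ht
  exact h2 h3

/-- The time-one map of an autonomous flow. -/
lemma mem_PHam_of_flow {η : TwoForm I M} {g : M → ℝ}
    (hg : ContMDiff I 𝓘(ℝ, ℝ) ∞ g) {K : Set M} (hK : IsCompact K) (hgK : ∀ x, x ∉ K → g x = 0)
    {Ψ : ℝ → M → M} (h0 : ∀ x, Ψ 0 x = x)
    (hΨ : ∀ t ∈ Icc (0 : ℝ) 1, ∀ x, ∃ X : E, FlowAt η g (fun s => Ψ s x) t X) :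
    Ψ 1 ∈ PHam η := by
  have hd : ∀ t, HasDerivAt Real.smoothTransition (deriv Real.smoothTransition t) t := by
    intro t
    exact ((Real.smoothTransition.contDiff (n := 1)).differentiable (by norm_num) t).hasDerivAt
  refine ⟨fun t x => deriv Real.smoothTransition t * g x,
    fun t x => Ψ (Real.smoothTransition t) x, ⟨⟨?_, ?_, ?_, ?_⟩, ?_, ?_, ?_, ?_⟩, ?_⟩
  · have h1 : ContMDiff 𝓘(ℝ, ℝ) 𝓘(ℝ, ℝ) ∞ (deriv Real.smoothTransition) :=
      (contDiff_infty_iff_deriv.mp (Real.smoothTransition.contDiff (n := ⊤))).2.contMDiff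
    exact (h1.comp contMDiff_fst).mul (hg.comp contMDiff_snd)
  · refine ⟨K, hK, fun t x hx => ?_⟩
    rw [hgK x hx, mul_zero]
  · intro x
    rw [Real.smoothTransition.zero_of_nonpos le_rfl]
    exact h0 x
  · intro t x
    obtain ⟨X, hX⟩ := hΨ (Real.smoothTransition t)
      ⟨Real.smoothTransition.nonneg t, Real.smoothTransition.le_one t⟩ x
    refine ⟨deriv Real.smoothTransition t • X, ?_⟩
    exact FlowAt.rescale (a := Real.smoothTransition) hX (hd t)
      (hg.mdifferentiable (by simp))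
  · intro t ht x
    rw [deriv_smoothTransition_left ht, zero_mul]
  · intro t ht x
    rw [Real.smoothTransition.zero_of_nonpos ht]
    exact h0 x
  · intro t ht x
    rw [deriv_smoothTransition_right ht, zero_mul]
  · intro t ht x
    rw [Real.smoothTransition.one_of_one_le ht, Real.smoothTransition.one_of_one_le le_rfl]
  · intro x
    change Ψ (Real.smoothTransition 1) x = Ψ 1 x
    rw [Real.smoothTransition.one_of_one_le le_rfl]

end Pool.Agent.H844R2.AG
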