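import Pool.Agent.H844R2.AG.Etale
import Pool.Agent.H844R2.AG.HamPath

/-!
# Gluing three sheets

Three open subsets `T 0, T 1, T 2` of `E` are glued along the parts of their intersections where
`k ≤ 0`; the result is realised as a subset of `E × ℝ`, the sheet `i` being the graph of
`a i * max 0 k` over `T i`.
-/

open scoped Manifold ContDiff Topology
open Set Filter

set_option linter.unusedSectionVars false

noncomputable section

namespace Pool.Agent.H844R2.AG

/-- the three slopes `0, 1, -1` -/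
def sl : Fin 3 → ℝ := ![0, 1, -1]

lemma sl_inj {i j : Fin 3} (h : sl i = sl j) : i = j := by
  fin_cases i <;> fin_cases j <;> simp [sl] at h ⊢ <;> norm_num at h

/-- three open sets with a gluing function -/
structure GlueData (E : Type) [NormedAddCommGroup E] where
  /-- the ambient open set -/
  X : Set E
  isOpen_X : IsOpen X
  /-- the sheets -/
  T : Fin 3 → Set E
  isOpen_T : ∀ i, IsOpen (T i)
  subset_X : ∀ i, T i ⊆ X
  /-- the gluing function -/
  k : E → ℝ
  cont : ContinuousOn k X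
  sep : ∀ i j, i ≠ j → ∀ x ∈ T i, x ∈ closure (T j) → k x ≠ 0
  /-- a point -/
  base : E
  base_mem : base ∈ T 0

variable {E : Type} [NormedAddCommGroup E]

namespace GlueData

variable (D : GlueData E)

/-- the height of the sheet `i` -/
def ht (i : Fin 3) (x : E) : ℝ := sl i * max 0 (D.k x)

/-- the glued space -/
def Sp : Type := {m : E × ℝ // ∃ i, m.1 ∈ D.T i ∧ m.2 = D.ht i m.1}

instance : TopologicalSpace D.Sp := inferInstanceAs (TopologicalSpace {_m : E × ℝ // _})
instance : T2Space D.Sp := inferInstanceAs (T2Space {_m : E × ℝ // _})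

/-- the projection -/
def pr (m : D.Sp) : E := m.1.1

/-- the height -/
def hh (m : D.Sp) : ℝ := m.1.2

lemma continuous_pr : Continuous D.pr := continuous_fst.comp continuous_subtype_val
lemma continuous_hh : Continuous D.hh := continuous_snd.comp continuous_subtype_val

lemma ext' {m m' : D.Sp} (h1 : D.pr m = D.pr m') (h2 : D.hh m = D.hh m') : m = m' :=
  Subtype.ext (Prod.ext h1 h2)

lemma exists_sheet (m : D.Sp) : ∃ i, D.pr m ∈ D.T i ∧ D.hh m = D.ht i (D.pr m) := m.2

/-- the sheets in the glued space -/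
def sheet (i : Fin 3) : Set D.Sp := {m | D.pr m ∈ D.T i ∧ D.hh m = D.ht i (D.pr m)}

lemma exists_mem_sheet (m : D.Sp) : ∃ i, m ∈ D.sheet i := D.exists_sheet m

lemma contAt_k {i : Fin 3} {x : E} (hx : x ∈ D.T i) : ContinuousAt D.k x :=
  D.cont.continuousAt (D.isOpen_X.mem_nhds (D.subset_X i hx))

lemma contAt_ht {i : Fin 3} {x : E} (hx : x ∈ D.T i) (j : Fin 3) : ContinuousAt (D.ht j) x :=
  continuousAt_const.mul (continuousAt_const.max (D.contAt_k hx))

lemma isOpen_sheet (i : Fin 3) : IsOpen (D.sheet i) := by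
  rw [isOpen_iff_mem_nhds]
  intro m₀ hm₀
  have hx₀ := hm₀.1
  have hpr : Tendsto D.pr (𝓝 m₀) (𝓝 (D.pr m₀)) := D.continuous_pr.tendsto m₀
  have key : ∀ j : Fin 3, ∀ᶠ m in 𝓝 m₀,
      (D.pr m ∈ D.T j ∧ D.hh m = D.ht j (D.pr m)) → D.hh m = D.ht i (D.pr m) := by
    intro j
    rcases eq_or_ne i j with rfl | hij
    · exact Eventually.of_forall fun m h => h.2
    by_cases hcl : D.pr m₀ ∈ closure (D.T j)
    · have hk := D.sep i j hij _ hx₀ hcl
      have hkt : Tendsto (fun m => D.k (D.pr m)) (𝓝 m₀) (𝓝 (D.k (D.pr m₀))) :=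
        (D.contAt_k hx₀).tendsto.comp hpr
      rcases lt_or_gt_of_ne hk with hneg | hpos
      · filter_upwards [hkt.eventually (gt_mem_nhds hneg)] with m hm h
        rw [h.2]
        simp [ht, max_eq_left (le_of_lt hm)]
      · have h1 : Tendsto (fun m => D.hh m - D.ht j (D.pr m)) (𝓝 m₀)
            (𝓝 (D.hh m₀ - D.ht j (D.pr m₀))) :=
          (D.continuous_hh.tendsto m₀).sub ((D.contAt_ht hx₀ j).tendsto.comp hpr)
        have h2 : D.hh m₀ - D.ht j (D.pr m₀) ≠ 0 := by
          rw [hm₀.2]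
          simp only [ht, max_eq_right (le_of_lt hpos)]
          rw [← sub_mul]
          refine mul_ne_zero ?_ (ne_of_gt hpos)
          intro h0
          exact hij (sl_inj (sub_eq_zero.mp h0))
        filter_upwards [h1.eventually_ne h2] with m hm h
        exact absurd (sub_eq_zero.mpr h.2) hm
    · have : ∀ᶠ m in 𝓝 m₀, D.pr m ∈ (closure (D.T j))ᶜ :=
        hpr.eventually (isClosed_closure.isOpen_compl.mem_nhds hcl)
      filter_upwards [this] with m hm h
      exact absurd (subset_closure h.1) hm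
  have h2 : ∀ᶠ m in 𝓝 m₀, D.pr m ∈ D.T i := hpr.eventually ((D.isOpen_T i).mem_nhds hx₀)
  filter_upwards [eventually_all.mpr key, h2] with m hm h2m
  obtain ⟨j, hj⟩ := D.exists_sheet m
  exact ⟨h2m, hm j hj⟩

/-- the base point -/
def pt : D.Sp := ⟨(D.base, D.ht 0 D.base), 0, D.base_mem, rfl⟩

open Classical in
/-- the inverse of the projection of the sheet `i` -/
def sec (i : Fin 3) (x : E) : D.Sp :=
  if h : x ∈ D.T i then ⟨(x, D.ht i x), i, h, rfl⟩ else D.pt

lemma sec_of_mem {i : Fin 3} {x : E} (h : x ∈ D.T i) : D.sec i x = ⟨(x, D.ht i x), i, h, rfl⟩ :=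
  dif_pos h

lemma pr_sec {i : Fin 3} {x : E} (h : x ∈ D.T i) : D.pr (D.sec i x) = x := by
  rw [D.sec_of_mem h]; rfl

lemma hh_sec {i : Fin 3} {x : E} (h : x ∈ D.T i) : D.hh (D.sec i x) = D.ht i x := by
  rw [D.sec_of_mem h]; rfl

lemma sec_mem {i : Fin 3} {x : E} (h : x ∈ D.T i) : D.sec i x ∈ D.sheet i := by
  refine ⟨?_, ?_⟩
  · rwa [D.pr_sec h]
  · rw [D.pr_sec h, D.hh_sec h]

lemma sec_pr {i : Fin 3} {m : D.Sp} (h : m ∈ D.sheet i) : D.sec i (D.pr m) = m := by
  apply D.ext'
  · rw [D.pr_sec h.1]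
  · rw [D.hh_sec h.1, h.2]

/-- the chart given by the sheet `i` -/
def chart (i : Fin 3) : OpenPartialHomeomorph D.Sp E where
  toFun := D.pr
  invFun := D.sec i
  source := D.sheet i
  target := D.T i
  map_source' := fun m hm => hm.1
  map_target' := fun x hx => D.sec_mem hx
  left_inv' := fun m hm => D.sec_pr hm
  right_inv' := fun x hx => D.pr_sec hx
  open_source := D.isOpen_sheet i
  open_target := D.isOpen_T i
  continuousOn_toFun := D.continuous_pr.continuousOn
  continuousOn_invFun := by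
    have hind : Topology.IsInducing (fun m : D.Sp => m.1) := Topology.IsInducing.subtypeVal
    rw [hind.continuousOn_iff]
    have h1 : ContinuousOn (fun x => (x, D.ht i x)) (D.T i) := by
      refine continuousOn_id.prodMk ?_
      intro x hx
      exact (D.contAt_ht hx i).continuousWithinAt
    refine h1.congr ?_
    intro x hx
    simp only [Function.comp_apply]
    rw [D.sec_of_mem hx]

lemma isLocalHomeomorph_pr : IsLocalHomeomorph D.pr := by
  intro m
  obtain ⟨i, hi⟩ := D.exists_mem_sheet m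
  exact ⟨D.chart i, hi, rfl⟩

instance : ChartedSpace E D.Sp := etaleCharted D.pr D.isLocalHomeomorph_pr

instance : IsEtale D.pr := ⟨fun _ he => he⟩

instance [NormedSpace ℝ E] : IsManifold 𝓘(ℝ, E) ∞ D.Sp := isManifold_of_isEtale D.pr

instance [SecondCountableTopology E] : SecondCountableTopology D.Sp :=
  inferInstanceAs (SecondCountableTopology {_m : E × ℝ // _})

lemma pr_mem (m : D.Sp) : D.pr m ∈ D.X := by
  obtain ⟨i, hi⟩ := D.exists_mem_sheet m
  exact D.subset_X i hi.1

/-- points of two sheets where `k ≤ 0` are glued -/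
lemma sec_eq_sec {i j : Fin 3} {x : E} (hi : x ∈ D.T i) (hj : x ∈ D.T j) (hk : D.k x ≤ 0) :
    D.sec i x = D.sec j x := by
  apply D.ext'
  · rw [D.pr_sec hi, D.pr_sec hj]
  · rw [D.hh_sec hi, D.hh_sec hj]
    simp [ht, max_eq_left hk]

lemma continuousAt_sec {i : Fin 3} {x : E} (hx : x ∈ D.T i) : ContinuousAt (D.sec i) x :=
  (D.chart i).symm.continuousAt hx

end GlueData

/-! ### Lifting a flow in a sheet -/

section Lift

variable [NormedSpace ℝ E] (D : GlueData E) (i : Fin 3)

open Classical in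
/-- a function supported in a sheet -/
def liftFun (g : E → ℝ) (m : D.Sp) : ℝ := if m ∈ D.sheet i then g (D.pr m) else 0

open Classical in
/-- a flow supported in a sheet -/
def liftFlow (c : E → ℝ → E) (t : ℝ) (m : D.Sp) : D.Sp :=
  if m ∈ D.sheet i then D.sec i (c (D.pr m) t) else m

variable {D i}

lemma liftFun_eventually {g : E → ℝ} {m : D.Sp} (hm : m ∈ D.sheet i) :
    liftFun D i g =ᶠ[𝓝 m] g ∘ D.pr := by
  filter_upwards [(D.isOpen_sheet i).mem_nhds hm] with m' hm'
  simp only [liftFun, if_pos hm', Function.comp_apply]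

lemma isCompact_lift {K : Set E} (hK : IsCompact K) (hKT : K ⊆ D.T i) :
    IsCompact (D.sec i '' K) :=
  hK.image_of_continuousOn fun _ hx => (D.continuousAt_sec (hKT hx)).continuousWithinAt

lemma liftFun_eq_zero {g : E → ℝ} {K : Set E} (hgK : ∀ x, x ∉ K → g x = 0)
    {m : D.Sp} (hm : m ∉ D.sec i '' K) : liftFun D i g m = 0 := by
  unfold liftFun
  split_ifs with h
  · refine hgK _ fun hx => hm ⟨_, hx, ?_⟩
    exact D.sec_pr h
  · rfl

lemma liftFun_eventually_zero {g : E → ℝ} {K : Set E} (hK : IsCompact K) (hKT : K ⊆ D.T i)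
    (hgK : ∀ x, x ∉ K → g x = 0) {m : D.Sp} (hm : m ∉ D.sheet i) :
    liftFun D i g =ᶠ[𝓝 m] (fun _ : E => (0 : ℝ)) ∘ D.pr := by
  have h1 : m ∉ D.sec i '' K := by
    rintro ⟨x, hx, rfl⟩
    exact hm (D.sec_mem (hKT hx))
  filter_upwards [(isCompact_lift hK hKT).isClosed.isOpen_compl.mem_nhds h1] with m' hm'
  exact liftFun_eq_zero hgK hm'

lemma contMDiff_liftFun {g : E → ℝ} (hg : ContDiffOn ℝ ∞ g (D.T i)) {K : Set E}
    (hK : IsCompact K) (hKT : K ⊆ D.T i) (hgK : ∀ x, x ∉ K → g x = 0) :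
    ContMDiff 𝓘(ℝ, E) 𝓘(ℝ, ℝ) ∞ (liftFun D i g) := by
  intro m
  by_cases hm : m ∈ D.sheet i
  · exact contMDiffAt_from D.pr (liftFun_eventually hm)
      (hg.contDiffAt ((D.isOpen_T i).mem_nhds hm.1))
  · exact contMDiffAt_from D.pr (liftFun_eventually_zero hK hKT hgK hm) contDiffAt_const

/-- The lift of a Hamiltonian flow supported in the open set `T i`. -/
theorem liftFlow_mem_PHam {Ω : E → E [⋀^Fin 2]→L[ℝ] ℝ} {g : E → ℝ}
    (hg : ContDiffOn ℝ ∞ g (D.T i)) {K : Set E}
    (hK : IsCompact K) (hKT : K ⊆ D.T i) (hgK : ∀ x, x ∉ K → g x = 0) {c : E → ℝ → E}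
    (hc0 : ∀ x ∈ D.T i, c x 0 = x) (hcT : ∀ x ∈ D.T i, ∀ t, c x t ∈ D.T i)
    (hc : ∀ x ∈ D.T i, ∀ t ∈ Icc (0 : ℝ) 1, ∃ Y : E, HasDerivAt (c x) Y t ∧
      ∀ w, Ω (c x t) ![Y, w] = fderiv ℝ g (c x t) w) :
    liftFlow D i c 1 ∈ PHam (liftForm (M := D.Sp) D.pr Ω) := by
  refine mem_PHam_of_flow (contMDiff_liftFun hg hK hKT hgK) (isCompact_lift hK hKT)
    (fun m hm => liftFun_eq_zero hgK hm) ?_ ?_
  · intro m
    unfold liftFlow
    split_ifs with h
    · rw [hc0 _ h.1]; exact D.sec_pr h
    · rfl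
  · intro t ht m
    by_cases hm : m ∈ D.sheet i
    · obtain ⟨Y, hY, hYw⟩ := hc _ hm.1 t ht
      have hmem := hcT _ hm.1 t
      refine ⟨Y, ?_, ?_⟩
      · have e1 : (fun s => liftFlow D i c s m) = fun s => D.sec i (c (D.pr m) s) := by
          funext s
          simp only [liftFlow, if_pos hm]
        rw [e1]
        refine hasMFDerivAt_to D.pr ?_ ?_
        · exact ContinuousAt.comp (g := D.sec i) (D.continuousAt_sec hmem) hY.continuousAt
        · refine HasFDerivAt.hasMFDerivAt ?_
          have e2 : D.pr ∘ (fun s => D.sec i (c (D.pr m) s)) = c (D.pr m) := by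
            funext s
            exact D.pr_sec (hcT _ hm.1 s)
          rw [e2]
          exact hY.hasFDerivAt
      · intro w
        have e3 : liftFlow D i c t m = D.sec i (c (D.pr m) t) := by
          simp only [liftFlow, if_pos hm]
        have e4 : liftFlow D i c t m ∈ D.sheet i := by rw [e3]; exact D.sec_mem hmem
        have e5 : D.pr (liftFlow D i c t m) = c (D.pr m) t := by rw [e3]; exact D.pr_sec hmem
        have hd : HasFDerivAt g (fderiv ℝ g (c (D.pr m) t)) (D.pr (liftFlow D i c t m)) := by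
          rw [e5]
          exact ((hg.contDiffAt ((D.isOpen_T i).mem_nhds hmem)).differentiableAt
            (by simp)).hasFDerivAt
        have h6 : dAt 𝓘(ℝ, E) (liftFun D i g) (liftFlow D i c t m) = fderiv ℝ g (c (D.pr m) t) :=
          (hasMFDerivAt_from D.pr (liftFun_eventually e4) hd).mfderiv
        have h7 : formAt (liftForm (M := D.Sp) D.pr Ω) (liftFlow D i c t m) =
            Ω (c (D.pr m) t) := by
          change Ω (D.pr (liftFlow D i c t m)) = _
          rw [e5]
        rw [h6, h7]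
        exact hYw w
    · refine ⟨0, ?_, ?_⟩
      · have e1 : (fun s => liftFlow D i c s m) = fun _ => m := by
          funext s
          simp only [liftFlow, if_neg hm]
        rw [e1]
        have h0 : (((1 : ℝ →L[ℝ] ℝ).smulRight (0 : E) : ℝ →L[ℝ] E)) = 0 := by
          ext; simp
        rw [h0]
        exact hasMFDerivAt_const _ _
      · intro w
        have e3 : liftFlow D i c t m = m := by
          simp only [liftFlow, if_neg hm]
        have h6 : dAt 𝓘(ℝ, E) (liftFun D i g) m = 0 := by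
          have := hasMFDerivAt_from D.pr (liftFun_eventually_zero hK hKT hgK hm)
            (hasFDerivAt_const (0 : ℝ) (D.pr m))
          exact this.mfderiv
        change formAt (liftForm (M := D.Sp) D.pr Ω) (liftFlow D i c t m) ![0, w] =
          dAt 𝓘(ℝ, E) (liftFun D i g) (liftFlow D i c t m) w
        rw [e3, h6]
        have := (formAt (liftForm (M := D.Sp) D.pr Ω) m).map_coord_zero (m := ![0, w]) 0 rfl
        rw [this]
        rfl

end Lift

end Pool.Agent.H844R2.AG
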