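import Mathlib

/-!
# The cotangent bundle of the 2-torus, as an open subset of `ℂ × ℂ`

`T^* S^1` is identified with `ℂ \ {0}` by `(x, p) ↦ e^{p + i x}`; the form `dp ∧ dx` becomes
`Im (conj v * w) / |z|^2`.
-/

open scoped ContDiff Topology
open Set Filter

noncomputable section

namespace Pool.Agent.H844R2.AG

/-- `|z|^2` -/
def r2 (z : ℂ) : ℝ := z.re ^ 2 + z.im ^ 2

/-- `cos (arg z)` -/
def cc (z : ℂ) : ℝ := z.re / √(r2 z)

/-- `sin (arg z)` -/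
def ss (z : ℂ) : ℝ := z.im / √(r2 z)

/-- `log |z|` -/
def pp (z : ℂ) : ℝ := Real.log (r2 z) / 2

/-- the form `d arg` -/
def ang (z : ℂ) : ℂ →L[ℝ] ℝ := (z.re / r2 z) • Complex.imCLM - (z.im / r2 z) • Complex.reCLM

lemma ang_apply (z v : ℂ) : ang z v = (z.re * v.im - z.im * v.re) / r2 z := by
  simp [ang]; ring

lemma contDiff_r2 : ContDiff ℝ ∞ r2 := by
  unfold r2
  have h1 : ContDiff ℝ ∞ (fun z : ℂ => z.re) := Complex.reCLM.contDiff
  have h2 : ContDiff ℝ ∞ (fun z : ℂ => z.im) := Complex.imCLM.contDiff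
  exact (h1.pow 2).add (h2.pow 2)

lemma hasFDerivAt_r2 (z : ℂ) :
    HasFDerivAt r2 ((2 * z.re) • Complex.reCLM + (2 * z.im) • Complex.imCLM) z := by
  have h1 : HasFDerivAt (fun z : ℂ => z.re) Complex.reCLM z := Complex.reCLM.hasFDerivAt
  have h2 : HasFDerivAt (fun z : ℂ => z.im) Complex.imCLM z := Complex.imCLM.hasFDerivAt
  have h3 := (h1.pow 2).add (h2.pow 2)
  refine h3.congr_fderiv ?_
  ext v
  simp
  try ring

lemma contDiffAt_sqrt {z : ℂ} (hz : 0 < r2 z) : ContDiffAt ℝ ∞ (fun z => √(r2 z)) z :=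
  contDiff_r2.contDiffAt.sqrt hz.ne'

lemma contDiffAt_cc {z : ℂ} (hz : 0 < r2 z) : ContDiffAt ℝ ∞ cc z := by
  have h1 : ContDiffAt ℝ ∞ (fun z : ℂ => z.re) z := Complex.reCLM.contDiff.contDiffAt
  exact h1.div (contDiffAt_sqrt hz) (Real.sqrt_pos.mpr hz).ne'

lemma contDiffAt_ss {z : ℂ} (hz : 0 < r2 z) : ContDiffAt ℝ ∞ ss z := by
  have h1 : ContDiffAt ℝ ∞ (fun z : ℂ => z.im) z := Complex.imCLM.contDiff.contDiffAt
  exact h1.div (contDiffAt_sqrt hz) (Real.sqrt_pos.mpr hz).ne'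

lemma contDiffAt_pp {z : ℂ} (hz : 0 < r2 z) : ContDiffAt ℝ ∞ pp z :=
  (contDiff_r2.contDiffAt.log hz.ne').div_const 2

lemma sq_sqrt_r2 {z : ℂ} (hz : 0 < r2 z) : √(r2 z) ^ 2 = r2 z := Real.sq_sqrt hz.le

lemma hasFDerivAt_ss {z : ℂ} (hz : 0 < r2 z) : HasFDerivAt ss (cc z • ang z) z := by
  have h1 : HasFDerivAt (fun z : ℂ => z.im) Complex.imCLM z := Complex.imCLM.hasFDerivAt
  have h2 := (hasFDerivAt_r2 z).sqrt hz.ne'
  have hs : 0 < √(r2 z) := Real.sqrt_pos.mpr hz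
  have h4 := (hasDerivAt_inv hs.ne').comp_hasFDerivAt z h2
  have h3 := h1.mul h4
  refine h3.congr_fderiv ?_
  have hq := sq_sqrt_r2 hz
  have hr : r2 z = z.re ^ 2 + z.im ^ 2 := rfl
  ext v
  simp only [_root_.smul_apply, _root_.add_apply, smul_eq_mul, Function.comp_apply,
    Complex.imCLM_apply, Complex.reCLM_apply, ang_apply, cc]
  have e1 : r2 z = √(r2 z) ^ 2 := hq.symm
  have e2 : √(r2 z) ^ 2 = z.re ^ 2 + z.im ^ 2 := by rw [hq, hr]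
  generalize √(r2 z) = s at *
  rw [e1]
  field_simp
  linear_combination (v.im) * e2

lemma hasFDerivAt_cc {z : ℂ} (hz : 0 < r2 z) : HasFDerivAt cc (-ss z • ang z) z := by
  have h1 : HasFDerivAt (fun z : ℂ => z.re) Complex.reCLM z := Complex.reCLM.hasFDerivAt
  have h2 := (hasFDerivAt_r2 z).sqrt hz.ne'
  have hs : 0 < √(r2 z) := Real.sqrt_pos.mpr hz
  have h4 := (hasDerivAt_inv hs.ne').comp_hasFDerivAt z h2
  have h3 := h1.mul h4
  refine h3.congr_fderiv ?_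
  have hq := sq_sqrt_r2 hz
  have hr : r2 z = z.re ^ 2 + z.im ^ 2 := rfl
  ext v
  simp only [_root_.smul_apply, _root_.add_apply, smul_eq_mul, Function.comp_apply,
    Complex.imCLM_apply, Complex.reCLM_apply, ang_apply, ss]
  have e1 : r2 z = √(r2 z) ^ 2 := hq.symm
  have e2 : √(r2 z) ^ 2 = z.re ^ 2 + z.im ^ 2 := by rw [hq, hr]
  generalize √(r2 z) = s at *
  rw [e1]
  field_simp
  linear_combination (v.re) * e2

lemma cc_sq_add_ss_sq {z : ℂ} (hz : 0 < r2 z) : cc z ^ 2 + ss z ^ 2 = 1 := by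
  unfold cc ss
  rw [div_pow, div_pow, sq_sqrt_r2 hz, ← add_div]
  exact div_self hz.ne'

lemma abs_cc_le {z : ℂ} (hz : 0 < r2 z) : |cc z| ≤ 1 := by
  have := cc_sq_add_ss_sq hz
  rw [abs_le]
  constructor <;> nlinarith [sq_nonneg (ss z)]

lemma r2_smul (t : ℝ) (z : ℂ) : r2 (t • z) = t ^ 2 * r2 z := by
  simp [r2]; ring

lemma cc_smul {t : ℝ} (ht : 0 < t) (z : ℂ) : cc (t • z) = cc z := by
  unfold cc
  rw [r2_smul, Real.sqrt_mul (sq_nonneg t), Real.sqrt_sq ht.le]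
  simp only [Complex.real_smul, Complex.mul_re, Complex.ofReal_re, Complex.ofReal_im, zero_mul,
    sub_zero]
  rw [mul_div_mul_left _ _ ht.ne']

lemma pp_smul {t : ℝ} (ht : 0 < t) {z : ℂ} (hz : 0 < r2 z) :
    pp (t • z) = Real.log t + pp z := by
  unfold pp
  rw [r2_smul, Real.log_mul (by positivity) hz.ne', Real.log_pow]
  push_cast; ring

/-! ### The symplectic form -/

/-- the constant form `Im (conj v * w)` of the first factor -/
def A1 : (ℂ × ℂ) [⋀^Fin 2]→L[ℝ] ℝ where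
  toFun v := (v 0).1.re * (v 1).1.im - (v 0).1.im * (v 1).1.re
  map_update_add' v i x y := by
    fin_cases i <;> simp [Function.update] <;> ring
  map_update_smul' v i c x := by
    fin_cases i <;> simp [Function.update] <;> ring
  map_eq_zero_of_eq' v i j h hij := by
    fin_cases i <;> fin_cases j <;> simp at h hij ⊢ <;> rw [h] <;> ring
  cont := by fun_prop

/-- the constant form `Im (conj v * w)` of the second factor -/
def A2 : (ℂ × ℂ) [⋀^Fin 2]→L[ℝ] ℝ where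
  toFun v := (v 0).2.re * (v 1).2.im - (v 0).2.im * (v 1).2.re
  map_update_add' v i x y := by
    fin_cases i <;> simp [Function.update] <;> ring
  map_update_smul' v i c x := by
    fin_cases i <;> simp [Function.update] <;> ring
  map_eq_zero_of_eq' v i j h hij := by
    fin_cases i <;> fin_cases j <;> simp at h hij ⊢ <;> rw [h] <;> ring
  cont := by fun_prop

lemma A1_apply (v : Fin 2 → ℂ × ℂ) :
    A1 v = (v 0).1.re * (v 1).1.im - (v 0).1.im * (v 1).1.re := rfl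

lemma A2_apply (v : Fin 2 → ℂ × ℂ) :
    A2 v = (v 0).2.re * (v 1).2.im - (v 0).2.im * (v 1).2.re := rfl

/-- The symplectic form `dp ∧ dx` of `T^* T^2`. -/
def Om (z : ℂ × ℂ) : (ℂ × ℂ) [⋀^Fin 2]→L[ℝ] ℝ := (r2 z.1)⁻¹ • A1 + (r2 z.2)⁻¹ • A2

lemma Om_apply (z : ℂ × ℂ) (v w : ℂ × ℂ) :
    Om z ![v, w] = (r2 z.1)⁻¹ * (v.1.re * w.1.im - v.1.im * w.1.re) +
      (r2 z.2)⁻¹ * (v.2.re * w.2.im - v.2.im * w.2.re) := rfl

/-- `(ℂ \ {0})^2` -/
def XX : Set (ℂ × ℂ) := {z | 0 < r2 z.1 ∧ 0 < r2 z.2}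

lemma isOpen_XX : IsOpen XX := by
  have h1 : Continuous fun z : ℂ × ℂ => r2 z.1 := contDiff_r2.continuous.comp continuous_fst
  have h2 : Continuous fun z : ℂ × ℂ => r2 z.2 := contDiff_r2.continuous.comp continuous_snd
  exact (isOpen_lt continuous_const h1).inter (isOpen_lt continuous_const h2)

lemma contDiffOn_Om : ContDiffOn ℝ ∞ Om XX := by
  intro z hz
  have h1 : ContDiffAt ℝ ∞ (fun z : ℂ × ℂ => (r2 z.1)⁻¹) z :=
    ((contDiff_r2.comp contDiff_fst).contDiffAt).inv hz.1.ne'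
  have h2 : ContDiffAt ℝ ∞ (fun z : ℂ × ℂ => (r2 z.2)⁻¹) z :=
    ((contDiff_r2.comp contDiff_snd).contDiffAt).inv hz.2.ne'
  exact ((h1.smul contDiffAt_const).add (h2.smul contDiffAt_const)).contDiffWithinAt

lemma extDeriv_Om {z : ℂ × ℂ} (hz : z ∈ XX) : extDeriv Om z = 0 := by
  have hd : DifferentiableAt ℝ Om z :=
    (contDiffOn_Om.contDiffAt (isOpen_XX.mem_nhds hz)).differentiableAt (by simp)
  have h1 : ∃ f : ℂ →L[ℝ] ℝ, HasFDerivAt (fun z : ℂ => (r2 z)⁻¹) f z.1 :=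
    ⟨_, ((contDiff_r2.contDiffAt.inv hz.1.ne').differentiableAt (n := ∞) (by simp)).hasFDerivAt⟩
  have h2 : ∃ f : ℂ →L[ℝ] ℝ, HasFDerivAt (fun z : ℂ => (r2 z)⁻¹) f z.2 :=
    ⟨_, ((contDiff_r2.contDiffAt.inv hz.2.ne').differentiableAt (n := ∞) (by simp)).hasFDerivAt⟩
  obtain ⟨f, hf⟩ := h1
  obtain ⟨g, hg⟩ := h2
  have key : ∀ u : Fin 2 → ℂ × ℂ, fderiv ℝ (fun x => Om x u) z =
      (A1 u) • f.comp (ContinuousLinearMap.fst ℝ ℂ ℂ) +
        (A2 u) • g.comp (ContinuousLinearMap.snd ℝ ℂ ℂ) := by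
    intro u
    have a1 : HasFDerivAt (fun x : ℂ × ℂ => (r2 x.1)⁻¹) (f.comp (ContinuousLinearMap.fst ℝ ℂ ℂ)) z :=
      HasFDerivAt.comp (g := fun z : ℂ => (r2 z)⁻¹) z hf hasFDerivAt_fst
    have a2 : HasFDerivAt (fun x : ℂ × ℂ => (r2 x.2)⁻¹) (g.comp (ContinuousLinearMap.snd ℝ ℂ ℂ)) z :=
      HasFDerivAt.comp (g := fun z : ℂ => (r2 z)⁻¹) z hg hasFDerivAt_snd
    have a3 : HasFDerivAt (fun x => Om x u) ((A1 u) • f.comp (ContinuousLinearMap.fst ℝ ℂ ℂ) +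
        (A2 u) • g.comp (ContinuousLinearMap.snd ℝ ℂ ℂ)) z :=
      (a1.mul_const (A1 u)).add (a2.mul_const (A2 u))
    exact a3.fderiv
  have hdec : ∀ (f : ℂ →L[ℝ] ℝ), ∃ α β : ℝ, ∀ v : ℂ, f v = v.re * α + v.im * β := by
    intro f
    refine ⟨f 1, f Complex.I, fun v => ?_⟩
    have : v = v.re • (1 : ℂ) + v.im • Complex.I := by
      apply Complex.ext <;> simp
    conv_lhs => rw [this]
    rw [map_add, map_smul, map_smul]; simp
  obtain ⟨α, β, hfα⟩ := hdec f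
  obtain ⟨α', β', hgα⟩ := hdec g
  ext v
  rw [extDeriv_apply hd]
  change ∑ i : Fin 3, _ = _
  simp only [key, Fin.sum_univ_three, _root_.add_apply, _root_.smul_apply,
    ContinuousLinearMap.comp_apply, ContinuousLinearMap.coe_fst', ContinuousLinearMap.coe_snd',
    A1_apply, A2_apply, Fin.removeNth_apply, hfα, hgα, smul_eq_mul]
  simp [Fin.succAbove]
  ring

lemma Om_nondegenerate {z : ℂ × ℂ} (hz : z ∈ XX) (v : ℂ × ℂ) (h : ∀ w, Om z ![v, w] = 0) :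
    v = 0 := by
  have h1 := h (⟨-v.1.im, v.1.re⟩, 0)
  have h2 := h (0, ⟨-v.2.im, v.2.re⟩)
  rw [Om_apply] at h1 h2
  simp only [Complex.zero_re, Complex.zero_im, mul_zero, sub_zero, add_zero, zero_add] at h1 h2
  have k1 : v.1.re ^ 2 + v.1.im ^ 2 = 0 := by
    have := (mul_eq_zero.mp h1).resolve_left (inv_pos.mpr hz.1).ne'
    nlinarith
  have k2 : v.2.re ^ 2 + v.2.im ^ 2 = 0 := by
    have := (mul_eq_zero.mp h2).resolve_left (inv_pos.mpr hz.2).ne'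
    nlinarith
  refine Prod.ext (Complex.ext ?_ ?_) (Complex.ext ?_ ?_) <;>
  · simp
    nlinarith [sq_nonneg v.1.re, sq_nonneg v.1.im, sq_nonneg v.2.re, sq_nonneg v.2.im]

/-! ### The involution -/

/-- `z ↦ 1 / conj z` -/
def ta1 (z : ℂ) : ℂ := (r2 z)⁻¹ • z

/-- the involution `(x, p) ↦ (x, -p)` -/
def ta (z : ℂ × ℂ) : ℂ × ℂ := (ta1 z.1, ta1 z.2)

lemma r2_ta1 {z : ℂ} (hz : 0 < r2 z) : r2 (ta1 z) = (r2 z)⁻¹ := by
  unfold ta1
  rw [r2_smul]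
  field_simp

lemma ta1_ta1 {z : ℂ} (hz : 0 < r2 z) : ta1 (ta1 z) = z := by
  have h := r2_ta1 hz
  change (r2 (ta1 z))⁻¹ • ta1 z = z
  rw [h, inv_inv]
  unfold ta1
  rw [smul_smul, mul_inv_cancel₀ hz.ne', one_smul]

lemma cc_ta1 {z : ℂ} (hz : 0 < r2 z) : cc (ta1 z) = cc z := cc_smul (inv_pos.mpr hz) z

lemma pp_ta1 {z : ℂ} (hz : 0 < r2 z) : pp (ta1 z) = -pp z := by
  unfold pp
  rw [r2_ta1 hz, Real.log_inv]; ring

lemma ta_mem {z : ℂ × ℂ} (hz : z ∈ XX) : ta z ∈ XX := by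
  refine ⟨?_, ?_⟩
  · change 0 < r2 (ta1 z.1)
    rw [r2_ta1 hz.1]; exact inv_pos.mpr hz.1
  · change 0 < r2 (ta1 z.2)
    rw [r2_ta1 hz.2]; exact inv_pos.mpr hz.2

lemma ta_ta {z : ℂ × ℂ} (hz : z ∈ XX) : ta (ta z) = z :=
  Prod.ext (ta1_ta1 hz.1) (ta1_ta1 hz.2)

lemma contDiffAt_ta1 {z : ℂ} (hz : 0 < r2 z) : ContDiffAt ℝ ∞ ta1 z :=
  (contDiff_r2.contDiffAt.inv hz.ne').smul contDiffAt_id

lemma contDiffOn_ta : ContDiffOn ℝ ∞ ta XX := by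
  intro z hz
  have h1 : ContDiffAt ℝ ∞ (fun z : ℂ × ℂ => ta1 z.1) z :=
    ContDiffAt.comp (g := ta1) z (contDiffAt_ta1 hz.1) contDiffAt_fst
  have h2 : ContDiffAt ℝ ∞ (fun z : ℂ × ℂ => ta1 z.2) z :=
    ContDiffAt.comp (g := ta1) z (contDiffAt_ta1 hz.2) contDiffAt_snd
  exact (h1.prodMk h2).contDiffWithinAt

/-- the derivative of `ta1` -/
def dta1 (z : ℂ) : ℂ →L[ℝ] ℂ :=
  (r2 z)⁻¹ • ContinuousLinearMap.id ℝ ℂ +
    (-((r2 z ^ 2)⁻¹) • ((2 * z.re) • Complex.reCLM + (2 * z.im) • Complex.imCLM)).smulRight z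

lemma hasFDerivAt_ta1 {z : ℂ} (hz : 0 < r2 z) : HasFDerivAt ta1 (dta1 z) z := by
  have h1 : HasFDerivAt (fun z => (r2 z)⁻¹)
      (-((r2 z ^ 2)⁻¹) • ((2 * z.re) • Complex.reCLM + (2 * z.im) • Complex.imCLM)) z :=
    (hasDerivAt_inv hz.ne').comp_hasFDerivAt z (hasFDerivAt_r2 z)
  exact h1.smul (hasFDerivAt_id z)

lemma hasFDerivAt_ta {z : ℂ × ℂ} (hz : z ∈ XX) : HasFDerivAt ta
    (((dta1 z.1).comp (ContinuousLinearMap.fst ℝ ℂ ℂ)).prod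
      ((dta1 z.2).comp (ContinuousLinearMap.snd ℝ ℂ ℂ))) z := by
  have h1 : HasFDerivAt (fun z : ℂ × ℂ => ta1 z.1)
      ((dta1 z.1).comp (ContinuousLinearMap.fst ℝ ℂ ℂ)) z :=
    HasFDerivAt.comp (g := ta1) z (hasFDerivAt_ta1 hz.1) hasFDerivAt_fst
  have h2 : HasFDerivAt (fun z : ℂ × ℂ => ta1 z.2)
      ((dta1 z.2).comp (ContinuousLinearMap.snd ℝ ℂ ℂ)) z :=
    HasFDerivAt.comp (g := ta1) z (hasFDerivAt_ta1 hz.2) hasFDerivAt_snd
  exact h1.prodMk h2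

lemma dta1_anti {z : ℂ} (hz : 0 < r2 z) (v w : ℂ) :
    (r2 (ta1 z))⁻¹ * ((dta1 z v).re * (dta1 z w).im - (dta1 z v).im * (dta1 z w).re) =
      -((r2 z)⁻¹ * (v.re * w.im - v.im * w.re)) := by
  rw [r2_ta1 hz]
  have hr : r2 z = z.re ^ 2 + z.im ^ 2 := rfl
  have hz' : z.re ^ 2 + z.im ^ 2 ≠ 0 := hz.ne'
  simp only [dta1, _root_.add_apply, _root_.smul_apply, ContinuousLinearMap.smulRight_apply,
    ContinuousLinearMap.id_apply, Complex.add_re, Complex.add_im, Complex.real_smul,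
    Complex.mul_re, Complex.mul_im, Complex.ofReal_re, Complex.ofReal_im, smul_eq_mul,
    Complex.reCLM_apply, Complex.imCLM_apply, zero_mul, sub_zero, add_zero]
  rw [hr]
  field_simp
  ring

lemma ta_anti {z : ℂ × ℂ} (hz : z ∈ XX) (v w : ℂ × ℂ) :
    Om (ta z) ![fderiv ℝ ta z v, fderiv ℝ ta z w] = -Om z ![v, w] := by
  rw [(hasFDerivAt_ta hz).fderiv, Om_apply, Om_apply]
  have h1 := dta1_anti hz.1 v.1 w.1
  have h2 := dta1_anti hz.2 v.2 w.2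
  change (r2 (ta1 z.1))⁻¹ * ((dta1 z.1 v.1).re * (dta1 z.1 w.1).im -
      (dta1 z.1 v.1).im * (dta1 z.1 w.1).re) +
    (r2 (ta1 z.2))⁻¹ * ((dta1 z.2 v.2).re * (dta1 z.2 w.2).im -
      (dta1 z.2 v.2).im * (dta1 z.2 w.2).re) = _
  rw [h1, h2]; ring

end Pool.Agent.H844R2.AG
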