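import Pool.Agent.H844R2.AG.Model
import Pool.Agent.H844R2.AG.Glue

/-!
# The three tracks and their thin neighbourhoods
-/

open scoped ContDiff Topology
open Set Filter Metric

noncomputable section

namespace Pool.Agent.H844R2.AG

/-! ### Inequalities -/

/-- membership of the first track, in the fibre -/
def R0 (C D p q : ℝ) : Prop := ∃ σ : ℝ, p = -σ * C ∧ q = σ * D

/-- membership of the second track, in the fibre -/
def R1 (C D p q : ℝ) : Prop :=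
  (∃ s ∈ Icc (0 : ℝ) 1, p = (-(1 - s) + s / 2) * C ∧ q = ((1 - s) + s / 2) * D) ∨
  (∃ s ∈ Icc (0 : ℝ) 1, p = (1 - s) / 2 * C + s / 8 * (1 - 2 * C - 2 * C ^ 2) ∧
    q = (1 - s) / 2 * D + s / 8 * (1 - 2 * D - 2 * D ^ 2))

lemma ratio_aux {C s P : ℝ} (hC : 1 / 8 ≤ C) (hC1 : C ≤ 1) (hs : s ∈ Icc (0 : ℝ) 1)
    (h : P * C = (1 - s) / 2 * C + s / 8 * (1 - 2 * C - 2 * C ^ 2)) :
    -3 / 8 ≤ P ∧ (C = 1 / 8 → 1 / 2 ≤ P) := by
  have hCp : 0 < C := by linarith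
  constructor
  · by_contra hn
    push Not at hn
    have h1 : P * C < -3 / 8 * C := by nlinarith
    have h2 : 0 ≤ (1 - C) * (1 + 2 * C) := by nlinarith
    have h3 : 0 ≤ s * ((1 - C) * (1 + 2 * C)) := mul_nonneg hs.1 h2
    have h4 : 0 ≤ (1 - s) * C := mul_nonneg (by linarith [hs.2]) hCp.le
    nlinarith
  · intro hC8
    subst hC8
    have := hs.1
    have := hs.2
    linarith

lemma ratio_R1 {C D P Q : ℝ} (hC : 1 / 8 ≤ C) (hC1 : C ≤ 1) (hD : 1 / 8 ≤ D) (hD1 : D ≤ 1)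
    (h : R1 C D (P * C) (Q * D)) :
    (∃ s ∈ Icc (0 : ℝ) 1, P = -(1 - s) + s / 2 ∧ Q = (1 - s) + s / 2) ∨
    (-3 / 8 ≤ P ∧ -3 / 8 ≤ Q ∧ (C = 1 / 8 → 1 / 2 ≤ P) ∧ (D = 1 / 8 → 1 / 2 ≤ Q)) := by
  rcases h with ⟨s, hs, h1, h2⟩ | ⟨s, hs, h1, h2⟩
  · left
    exact ⟨s, hs, mul_right_cancel₀ (by linarith : C ≠ 0) h1,
      mul_right_cancel₀ (by linarith : D ≠ 0) h2⟩
  · right
    obtain ⟨a1, a2⟩ := ratio_aux hC hC1 hs h1
    obtain ⟨b1, b2⟩ := ratio_aux hD hD1 hs h2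
    exact ⟨a1, b1, a2, b2⟩

/-- the boundary of the region where the sheets are not glued -/
def Bd (C D P Q : ℝ) : Prop :=
  1 / 8 ≤ C ∧ 1 / 8 ≤ D ∧ |P| ≤ 1 / 2 ∧ |Q| ≤ 1 / 2 ∧
    (C = 1 / 8 ∨ D = 1 / 8 ∨ |P| = 1 / 2 ∨ |Q| = 1 / 2)

lemma no01 {C D P Q : ℝ} (hC1 : C ≤ 1) (hD1 : D ≤ 1) (hb : Bd C D P Q)
    (h0 : R0 C D (P * C) (Q * D)) (h1 : R1 C D (P * C) (Q * D)) : False := by
  obtain ⟨hC, hD, hP, hQ, hor⟩ := hb
  obtain ⟨σ, e1, e2⟩ := h0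
  have e1' : P = -σ := mul_right_cancel₀ (by linarith : C ≠ 0) e1
  have e2' : Q = σ := mul_right_cancel₀ (by linarith : D ≠ 0) e2
  rw [abs_le] at hP hQ
  rcases ratio_R1 hC hC1 hD hD1 h1 with ⟨s, hs, a1, a2⟩ | ⟨a1, a2, a3, a4⟩
  · have hs1 := hs.1
    have hs2 := hs.2
    linarith
  · have hP' : |P| ≤ 3 / 8 := abs_le.mpr ⟨by linarith, by linarith⟩
    have hQ' : |Q| ≤ 3 / 8 := abs_le.mpr ⟨by linarith, by linarith⟩
    rcases hor with h | h | h | h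
    · have := a3 h; linarith
    · have := a4 h; linarith
    · linarith
    · linarith

lemma no12 {C D P Q : ℝ} (hC1 : C ≤ 1) (hD1 : D ≤ 1) (hb : Bd C D P Q)
    (h1 : R1 C D (P * C) (Q * D)) (h2 : R1 C D (-P * C) (-Q * D)) : False := by
  obtain ⟨hC, hD, hP, hQ, hor⟩ := hb
  rw [abs_le] at hP hQ
  rcases ratio_R1 hC hC1 hD hD1 h1 with ⟨s, hs, a1, a2⟩ | ⟨a1, a2, a3, a4⟩
  · have hs1 := hs.1
    have hs2 := hs.2
    rcases ratio_R1 hC hC1 hD hD1 h2 with ⟨t, ht, b1, b2⟩ | ⟨b1, b2, b3, b4⟩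
    · have ht1 := ht.1
      have ht2 := ht.2
      linarith
    · linarith
  · rcases ratio_R1 hC hC1 hD hD1 h2 with ⟨t, ht, b1, b2⟩ | ⟨b1, b2, b3, b4⟩
    · have ht1 := ht.1
      have ht2 := ht.2
      linarith
    · have hP' : |P| ≤ 3 / 8 := abs_le.mpr ⟨by linarith, by linarith⟩
      have hQ' : |Q| ≤ 3 / 8 := abs_le.mpr ⟨by linarith, by linarith⟩
      rcases hor with h | h | h | h
      · have := a3 h; linarith
      · have := a4 h; linarith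
      · linarith
      · linarith

/-! ### The tracks -/

/-- the point over `ζ` with momentum `(a, b)` -/
def tr (ζ : ℂ × ℂ) (a b : ℝ) : ℂ × ℂ := (Real.exp a • ζ.1, Real.exp b • ζ.2)

/-- the torus -/
def TT : Set (ℂ × ℂ) := {ζ | r2 ζ.1 = 1 ∧ r2 ζ.2 = 1}

lemma r2_eq (z : ℂ) : r2 z = ‖z‖ ^ 2 := by
  rw [← Complex.normSq_eq_norm_sq, Complex.normSq_apply]
  unfold r2; ring

lemma r2_eq_one_iff {z : ℂ} : r2 z = 1 ↔ z ∈ sphere (0 : ℂ) 1 := by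
  rw [r2_eq, mem_sphere_zero_iff_norm]
  constructor
  · intro h
    nlinarith [norm_nonneg z]
  · intro h; rw [h]; norm_num

lemma TT_eq : TT = sphere (0 : ℂ) 1 ×ˢ sphere (0 : ℂ) 1 := by
  ext ζ
  simp only [TT, mem_ofPred_eq, mem_prod, r2_eq_one_iff]

lemma isCompact_TT : IsCompact TT := by
  rw [TT_eq]
  exact (isCompact_sphere _ _).prod (isCompact_sphere _ _)

lemma TT_nonempty : TT.Nonempty := ⟨(1, 1), by simp [TT, r2]⟩

lemma tr_mem {ζ : ℂ × ℂ} (hζ : ζ ∈ TT) (a b : ℝ) : tr ζ a b ∈ XX := by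
  refine ⟨?_, ?_⟩
  · change 0 < r2 (Real.exp a • ζ.1)
    rw [r2_smul, hζ.1]; positivity
  · change 0 < r2 (Real.exp b • ζ.2)
    rw [r2_smul, hζ.2]; positivity

lemma cc_unit {z : ℂ} (hz : r2 z = 1) : cc z = z.re := by
  unfold cc; rw [hz]; simp

lemma pp_unit {z : ℂ} (hz : r2 z = 1) : pp z = 0 := by
  unfold pp; rw [hz]; simp

lemma cc_exp {z : ℂ} (hz : r2 z = 1) (a : ℝ) : cc (Real.exp a • z) = z.re := by
  rw [cc_smul (Real.exp_pos a), cc_unit hz]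

lemma pp_exp {z : ℂ} (hz : r2 z = 1) (a : ℝ) : pp (Real.exp a • z) = a := by
  rw [pp_smul (Real.exp_pos a) (by rw [hz]; norm_num), pp_unit hz, Real.log_exp, add_zero]

lemma ta1_exp {z : ℂ} (hz : r2 z = 1) (a : ℝ) : ta1 (Real.exp a • z) = Real.exp (-a) • z := by
  unfold ta1
  rw [r2_smul, hz, smul_smul, mul_one, Real.exp_neg]
  congr 1
  have := Real.exp_pos a
  field_simp

lemma ta_tr {ζ : ℂ × ℂ} (hζ : ζ ∈ TT) (a b : ℝ) : ta (tr ζ a b) = tr ζ (-a) (-b) :=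
  Prod.ext (ta1_exp hζ.1 a) (ta1_exp hζ.2 b)

lemma continuous_tr : Continuous fun x : (ℂ × ℂ) × ℝ × ℝ => tr x.1 x.2.1 x.2.2 := by
  unfold tr
  fun_prop

/-- the value of `1 - 2c - 2c²` -/
def WW (c : ℝ) : ℝ := 1 - 2 * c - 2 * c ^ 2

/-- the first track -/
def V0 : Set (ℂ × ℂ) :=
  (fun x : (ℂ × ℂ) × ℝ => tr x.1 (-x.2 * x.1.1.re) (x.2 * x.1.2.re)) '' (TT ×ˢ Icc (-1 : ℝ) 1)

/-- the second track -/
def V1 : Set (ℂ × ℂ) :=
  (fun x : (ℂ × ℂ) × ℝ => tr x.1 ((-(1 - x.2) + x.2 / 2) * x.1.1.re)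
    (((1 - x.2) + x.2 / 2) * x.1.2.re)) '' (TT ×ˢ Icc (0 : ℝ) 1) ∪
  (fun x : (ℂ × ℂ) × ℝ => tr x.1 ((1 - x.2) / 2 * x.1.1.re + x.2 / 8 * WW x.1.1.re)
    ((1 - x.2) / 2 * x.1.2.re + x.2 / 8 * WW x.1.2.re)) '' (TT ×ˢ Icc (0 : ℝ) 1)

/-- the three tracks -/
def VV : Fin 3 → Set (ℂ × ℂ) := ![V0, V1, ta '' V1]

lemma V0_sub : V0 ⊆ XX := by
  rintro _ ⟨x, hx, rfl⟩
  exact tr_mem hx.1 _ _

lemma V1_sub : V1 ⊆ XX := by
  rintro _ (⟨x, hx, rfl⟩ | ⟨x, hx, rfl⟩)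
  · exact tr_mem hx.1 _ _
  · exact tr_mem hx.1 _ _

lemma isCompact_V0 : IsCompact V0 := by
  refine (isCompact_TT.prod isCompact_Icc).image ?_
  unfold tr
  fun_prop

lemma isCompact_V1 : IsCompact V1 := by
  refine ((isCompact_TT.prod isCompact_Icc).image ?_).union
    ((isCompact_TT.prod isCompact_Icc).image ?_)
  · unfold tr
    fun_prop
  · unfold tr WW
    fun_prop

lemma isCompact_VV (i : Fin 3) : IsCompact (VV i) := by
  fin_cases i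
  · exact isCompact_V0
  · exact isCompact_V1
  · exact isCompact_V1.image_of_continuousOn (contDiffOn_ta.continuousOn.mono V1_sub)

lemma VV_sub (i : Fin 3) : VV i ⊆ XX := by
  fin_cases i
  · exact V0_sub
  · exact V1_sub
  · rintro _ ⟨x, hx, rfl⟩
    exact ta_mem (V1_sub hx)

lemma V1_rel {z : ℂ × ℂ} (hz : z ∈ V1) : R1 (cc z.1) (cc z.2) (pp z.1) (pp z.2) := by
  rcases hz with ⟨x, hx, rfl⟩ | ⟨x, hx, rfl⟩
  · left
    refine ⟨x.2, hx.2, ?_, ?_⟩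
    · simp only [tr]; rw [cc_exp hx.1.1, pp_exp hx.1.1]
    · simp only [tr]; rw [cc_exp hx.1.2, pp_exp hx.1.2]
  · right
    refine ⟨x.2, hx.2, ?_, ?_⟩
    · simp only [tr]; rw [cc_exp hx.1.1, pp_exp hx.1.1]; rfl
    · simp only [tr]; rw [cc_exp hx.1.2, pp_exp hx.1.2]; rfl

lemma V0_rel {z : ℂ × ℂ} (hz : z ∈ V0) : R0 (cc z.1) (cc z.2) (pp z.1) (pp z.2) := by
  obtain ⟨x, hx, rfl⟩ := hz
  refine ⟨x.2, ?_, ?_⟩
  · simp only [tr]; rw [cc_exp hx.1.1, pp_exp hx.1.1]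
  · simp only [tr]; rw [cc_exp hx.1.2, pp_exp hx.1.2]

lemma V2_rel {z : ℂ × ℂ} (hz : z ∈ ta '' V1) :
    R1 (cc z.1) (cc z.2) (-pp z.1) (-pp z.2) := by
  obtain ⟨x, hx, rfl⟩ := hz
  have h := V1_rel hx
  have hX := V1_sub hx
  change R1 (cc (ta1 x.1)) (cc (ta1 x.2)) (-pp (ta1 x.1)) (-pp (ta1 x.2))
  rw [cc_ta1 hX.1, cc_ta1 hX.2, pp_ta1 hX.1, pp_ta1 hX.2, neg_neg, neg_neg]
  exact h

/-- the gluing function -/
def kk (z : ℂ × ℂ) : ℝ :=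
  min (min (cc z.1 - 1 / 8) (cc z.2 - 1 / 8)) (min (cc z.1 / 2 - |pp z.1|) (cc z.2 / 2 - |pp z.2|))

lemma continuousOn_kk : ContinuousOn kk XX := by
  intro z hz
  have h1 : ContinuousAt (fun z : ℂ × ℂ => cc z.1) z :=
    ContinuousAt.comp (g := cc) (contDiffAt_cc hz.1).continuousAt continuousAt_fst
  have h2 : ContinuousAt (fun z : ℂ × ℂ => cc z.2) z :=
    ContinuousAt.comp (g := cc) (contDiffAt_cc hz.2).continuousAt continuousAt_snd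
  have h3 : ContinuousAt (fun z : ℂ × ℂ => pp z.1) z :=
    ContinuousAt.comp (g := pp) (contDiffAt_pp hz.1).continuousAt continuousAt_fst
  have h4 : ContinuousAt (fun z : ℂ × ℂ => pp z.2) z :=
    ContinuousAt.comp (g := pp) (contDiffAt_pp hz.2).continuousAt continuousAt_snd
  have h5 : ContinuousAt kk z := ((h1.sub continuousAt_const).min (h2.sub continuousAt_const)).min
    (((h1.div_const 2).sub h3.abs).min ((h2.div_const 2).sub h4.abs))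
  exact h5.continuousWithinAt

lemma kk_ta {z : ℂ × ℂ} (hz : z ∈ XX) : kk (ta z) = kk z := by
  change min (min (cc (ta1 z.1) - 1 / 8) (cc (ta1 z.2) - 1 / 8))
    (min (cc (ta1 z.1) / 2 - |pp (ta1 z.1)|) (cc (ta1 z.2) / 2 - |pp (ta1 z.2)|)) = _
  rw [cc_ta1 hz.1, cc_ta1 hz.2, pp_ta1 hz.1, pp_ta1 hz.2, abs_neg, abs_neg]
  rfl

lemma bd_of_kk {z : ℂ × ℂ} (h : kk z = 0) :
    Bd (cc z.1) (cc z.2) (pp z.1 / cc z.1) (pp z.2 / cc z.2) := by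
  unfold kk at h
  have h1 : 0 ≤ cc z.1 - 1 / 8 := h.ge.trans ((min_le_left _ _).trans (min_le_left _ _))
  have h2 : 0 ≤ cc z.2 - 1 / 8 := h.ge.trans ((min_le_left _ _).trans (min_le_right _ _))
  have h3 : 0 ≤ cc z.1 / 2 - |pp z.1| := h.ge.trans ((min_le_right _ _).trans (min_le_left _ _))
  have h4 : 0 ≤ cc z.2 / 2 - |pp z.2| := h.ge.trans ((min_le_right _ _).trans (min_le_right _ _))
  have c1 : 0 < cc z.1 := by linarith
  have c2 : 0 < cc z.2 := by linarith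
  have a1 : |pp z.1 / cc z.1| = |pp z.1| / cc z.1 := by rw [abs_div, abs_of_pos c1]
  have a2 : |pp z.2 / cc z.2| = |pp z.2| / cc z.2 := by rw [abs_div, abs_of_pos c2]
  refine ⟨by linarith, by linarith, ?_, ?_, ?_⟩
  · rw [a1, div_le_iff₀ c1]; linarith
  · rw [a2, div_le_iff₀ c2]; linarith
  · rcases min_choice (min (cc z.1 - 1 / 8) (cc z.2 - 1 / 8))
      (min (cc z.1 / 2 - |pp z.1|) (cc z.2 / 2 - |pp z.2|)) with e | e <;> rw [e] at h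
    · rcases min_choice (cc z.1 - 1 / 8) (cc z.2 - 1 / 8) with e | e <;> rw [e] at h
      · left; linarith
      · right; left; linarith
    · rcases min_choice (cc z.1 / 2 - |pp z.1|) (cc z.2 / 2 - |pp z.2|) with e | e <;> rw [e] at h
      · right; right; left
        rw [a1, div_eq_iff c1.ne']; linarith
      · right; right; right
        rw [a2, div_eq_iff c2.ne']; linarith

lemma cc_le_one {z : ℂ} (hz : 0 < r2 z) : cc z ≤ 1 := (abs_le.mp (abs_cc_le hz)).2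

lemma kk_ne_zero {i j : Fin 3} (hij : i ≠ j) {z : ℂ × ℂ} (hi : z ∈ VV i) (hj : z ∈ VV j) :
    kk z ≠ 0 := by
  intro h0
  have hX := VV_sub i hi
  have hb := bd_of_kk h0
  have c1 : cc z.1 ≠ 0 := by have := hb.1; intro h; linarith
  have c2 : cc z.2 ≠ 0 := by have := hb.2.1; intro h; linarith
  have l1 := cc_le_one hX.1
  have l2 := cc_le_one hX.2
  have e1 : pp z.1 / cc z.1 * cc z.1 = pp z.1 := div_mul_cancel₀ _ c1
  have e2 : pp z.2 / cc z.2 * cc z.2 = pp z.2 := div_mul_cancel₀ _ c2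
  have k0 : z ∈ V0 → R0 (cc z.1) (cc z.2) (pp z.1 / cc z.1 * cc z.1) (pp z.2 / cc z.2 * cc z.2) := by
    intro h; rw [e1, e2]; exact V0_rel h
  have k1 : z ∈ V1 → R1 (cc z.1) (cc z.2) (pp z.1 / cc z.1 * cc z.1) (pp z.2 / cc z.2 * cc z.2) := by
    intro h; rw [e1, e2]; exact V1_rel h
  have k2 : z ∈ ta '' V1 →
      R1 (cc z.1) (cc z.2) (-(pp z.1 / cc z.1) * cc z.1) (-(pp z.2 / cc z.2) * cc z.2) := by
    intro h; rw [neg_mul, neg_mul, e1, e2]; exact V2_rel h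
  have f01 : z ∈ V0 → z ∈ V1 → False := fun h h' => no01 l1 l2 hb (k0 h) (k1 h')
  have f12 : z ∈ V1 → z ∈ ta '' V1 → False := fun h h' => no12 l1 l2 hb (k1 h) (k2 h')
  have f02 : z ∈ V0 → z ∈ ta '' V1 → False := by
    intro h h'
    refine no01 (P := -(pp z.1 / cc z.1)) (Q := -(pp z.2 / cc z.2)) l1 l2 ?_ ?_ (k2 h')
    · unfold Bd
      rw [abs_neg, abs_neg]
      exact hb
    · obtain ⟨σ, s1, s2⟩ := k0 h
      refine ⟨-σ, ?_, ?_⟩
      · rw [neg_mul, s1]; ring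
      · rw [neg_mul, s2]; ring
  fin_cases i <;> fin_cases j
  · exact hij rfl
  · exact f01 hi hj
  · exact f02 hi hj
  · exact f01 hj hi
  · exact hij rfl
  · exact f12 hi hj
  · exact f02 hj hi
  · exact f12 hj hi
  · exact hij rfl

end Pool.Agent.H844R2.AG
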